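import Pool.Agent.Q299.PR.Lin

/-!
Pairs of hyperplanes: the expectation of the reciprocal of the sine of their angle.
-/

set_option linter.unusedSectionVars false

namespace Q299.PR

open MeasureTheory ProbabilityTheory Set

variable {m : ℕ} {ι : Type*} [Fintype ι] [DecidableEq ι]

/-- law of the rows -/
noncomputable abbrev PP (ι : Type*) [Fintype ι] (m : ℕ) : Measure (ι → EE m) :=
  Measure.pi fun _ => stdGaussian (EE m)

/-- resampling one coordinate does not change the law -/
lemma map_update (i : ι) :
    ((PP ι m).prod (stdGaussian (EE m))).map (fun p => Function.update p.1 i p.2) = PP ι m := by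
  symm
  refine Measure.pi_eq fun s hs => ?_
  have hmeas : Measurable fun p : (ι → EE m) × EE m => Function.update p.1 i p.2 :=
    measurable_update'
  rw [Measure.map_apply hmeas (MeasurableSet.univ_pi hs)]
  have h1 : (fun p : (ι → EE m) × EE m => Function.update p.1 i p.2) ⁻¹' (Set.pi univ s)
      = (Set.pi univ (Function.update s i univ)) ×ˢ (s i) := by
    ext p
    simp only [mem_preimage, mem_pi, mem_univ, forall_true_left, mem_prod]
    constructor
    · intro h
      refine ⟨fun j => ?_, ?_⟩
      · rcases eq_or_ne j i with rfl | hj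
        · rw [Function.update_self]; exact mem_univ _
        · rw [Function.update_of_ne hj]
          have := h j
          rwa [Function.update_of_ne hj] at this
      · have := h i
        rwa [Function.update_self] at this
    · rintro ⟨h1, h2⟩ j
      rcases eq_or_ne j i with rfl | hj
      · rw [Function.update_self]; exact h2
      · rw [Function.update_of_ne hj]
        have := h1 j
        rwa [Function.update_of_ne hj] at this
  rw [h1, Measure.prod_prod, Measure.pi_pi, ← Finset.mul_prod_erase Finset.univ _ (Finset.mem_univ i),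
    ← Finset.mul_prod_erase Finset.univ (fun j => stdGaussian (EE m) (s j)) (Finset.mem_univ i),
    Function.update_self, measure_univ, one_mul, mul_comm]
  congr 1
  refine Finset.prod_congr rfl fun j hj => ?_
  rw [Function.update_of_ne (Finset.ne_of_mem_erase hj)]

lemma lint_update (i : ι) {f : (ι → EE m) → ENNReal} (hf : Measurable f) :
    ∫⁻ F, f F ∂(PP ι m) = ∫⁻ F, ∫⁻ x, f (Function.update F i x) ∂(stdGaussian (EE m)) ∂(PP ι m) := by
  have hmeas : Measurable fun p : (ι → EE m) × EE m => Function.update p.1 i p.2 :=
    measurable_update'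
  have h2 : Measurable fun p : (ι → EE m) × EE m => f (Function.update p.1 i p.2) := hf.comp hmeas
  conv_lhs => rw [← map_update i]
  rw [lintegral_map hf hmeas, lintegral_prod _ h2.aemeasurable]

/-- the factor contributed by one row -/
noncomputable def psi (e b : EE m) : ENNReal :=
  if (inner ℝ e b : ℝ) = 0 then ⊤ else ENNReal.ofReal √(‖b‖ / |(inner ℝ e b : ℝ)|)

lemma psi_measurable : Measurable fun p : EE m × EE m => psi p.1 p.2 := by
  unfold psi
  have h1 : Measurable fun p : EE m × EE m => (inner ℝ p.1 p.2 : ℝ) := by fun_prop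
  refine Measurable.ite (h1 (measurableSet_singleton 0)) measurable_const ?_
  fun_prop

lemma lint_psi {e : EE m} (he : ‖e‖ = 1) :
    ∫⁻ b, psi e b ∂(stdGaussian (EE m)) ≤ ENNReal.ofReal (5 * √√((m : ℝ) + 1)) := by
  have h1 : ∀ᵐ b ∂(stdGaussian (EE m)), psi e b = ENNReal.ofReal √(‖b‖ / |(inner ℝ e b : ℝ)|) := by
    have h2 : stdGaussian (EE m) {b | |(inner ℝ e b : ℝ)| ≤ 0} = 0 := by
      have := slab_le he 0
      rw [ENNReal.ofReal_zero] at this
      exact le_antisymm this bot_le
    rw [ae_iff]
    refine measure_mono_null ?_ h2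
    intro b hb
    simp only [mem_ofPred_eq] at hb ⊢
    by_contra hcon
    apply hb
    unfold psi
    rw [if_neg]
    intro h0
    apply hcon
    rw [h0, abs_zero]
  rw [lintegral_congr_ae h1]
  refine moment_ratio he (by positivity) ?_
  rw [finrank_euclideanSpace_fin]
  push_cast; ring

/-- indicator of a nondegenerate `T` -/
noncomputable def nd (T : TT ι m) (F : ι → EE m) : ENNReal := if nT T F = 0 then 0 else 1

lemma nd_measurable (T : TT ι m) : Measurable (nd T : (ι → EE m) → ENNReal) := by
  unfold nd
  exact Measurable.ite ((nT_continuous T).measurable (measurableSet_singleton 0))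
    measurable_const measurable_const

/-- **Far pairs.** -/
lemma far_le (T' : TT ι m) {i j : ι} (hij : i ≠ j) (hi : i ∉ T'.1) (hj : j ∉ T'.1) :
    ∫⁻ F, nd T' F * (psi (nu T' F) (F i) * psi (nu T' F) (F j)) ∂(PP ι m)
      ≤ ENNReal.ofReal (25 * √((m : ℝ) + 1)) := by
  obtain ⟨C, hC⟩ : ∃ C : ENNReal, C = ENNReal.ofReal (5 * √√((m : ℝ) + 1)) := ⟨_, rfl⟩
  have mi : Measurable fun F : ι → EE m => psi (nu T' F) (F i) :=
    psi_measurable.comp ((nu_measurable T').prodMk (measurable_pi_apply i))
  have mj : Measurable fun F : ι → EE m => psi (nu T' F) (F j) :=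
    psi_measurable.comp ((nu_measurable T').prodMk (measurable_pi_apply j))
  have hψ : ∀ F : ι → EE m, nd T' F * ∫⁻ x, psi (nu T' F) x ∂(stdGaussian (EE m)) ≤ C * nd T' F := by
    intro F
    unfold nd
    split_ifs with h
    · simp
    · rw [one_mul, mul_one, hC]
      exact lint_psi (nu_norm h)
  have mpsi : ∀ F : ι → EE m, Measurable fun x => psi (nu T' F) x := fun F =>
    psi_measurable.comp (measurable_const.prodMk measurable_id)
  have mij : Measurable fun F : ι → EE m => nd T' F * (psi (nu T' F) (F i) * psi (nu T' F) (F j)) :=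
    (nd_measurable T').mul (mi.mul mj)
  have mj' : Measurable fun F : ι → EE m => nd T' F * psi (nu T' F) (F j) :=
    (nd_measurable T').mul mj
  calc ∫⁻ F, nd T' F * (psi (nu T' F) (F i) * psi (nu T' F) (F j)) ∂(PP ι m)
      = ∫⁻ F, ∫⁻ x, nd T' F * (psi (nu T' F) x * psi (nu T' F) (F j)) ∂(stdGaussian (EE m))
          ∂(PP ι m) := by
        rw [lint_update i mij]
        refine lintegral_congr fun F => lintegral_congr fun x => ?_
        unfold nd
        rw [nT_update T' F hi, nu_update T' F hi, Function.update_self,
          Function.update_of_ne hij.symm]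
    _ ≤ ∫⁻ F, C * (nd T' F * psi (nu T' F) (F j)) ∂(PP ι m) := by
        refine lintegral_mono fun F => ?_
        have h1 : ∀ x, nd T' F * (psi (nu T' F) x * psi (nu T' F) (F j))
            = (nd T' F * psi (nu T' F) (F j)) * psi (nu T' F) x := fun x => by ring
        simp_rw [h1]
        rw [lintegral_const_mul _ (mpsi F)]
        calc _ = (nd T' F * ∫⁻ x, psi (nu T' F) x ∂(stdGaussian (EE m))) * psi (nu T' F) (F j) := by
              ring
          _ ≤ (C * nd T' F) * psi (nu T' F) (F j) := mul_le_mul_left (hψ F) _
          _ = _ := by ring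
    _ = C * ∫⁻ F, nd T' F * psi (nu T' F) (F j) ∂(PP ι m) := by
        rw [lintegral_const_mul _ mj']
    _ = C * ∫⁻ F, ∫⁻ x, nd T' F * psi (nu T' F) x ∂(stdGaussian (EE m)) ∂(PP ι m) := by
        rw [lint_update j mj']
        congr 1
        refine lintegral_congr fun F => lintegral_congr fun x => ?_
        unfold nd
        rw [nT_update T' F hj, nu_update T' F hj, Function.update_self]
    _ ≤ C * ∫⁻ _F, C ∂(PP ι m) := by
        gcongr with F
        rw [lintegral_const_mul _ (mpsi F)]
        refine (hψ F).trans ?_
        unfold nd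
        split_ifs <;> simp
    _ = ENNReal.ofReal (25 * √((m : ℝ) + 1)) := by
        rw [lintegral_const, measure_univ, mul_one, hC, ← ENNReal.ofReal_mul (by positivity)]
        congr 1
        have := Real.mul_self_sqrt (Real.sqrt_nonneg ((m : ℝ) + 1))
        nlinarith

end Q299.PR
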