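import Pool.Agent.Q299.PR.Omega

/-!
Asymptotics of the stability constant.
-/

set_option linter.unusedSectionVars false

namespace Q299.PR

open MeasureTheory ProbabilityTheory Set Filter Topology

variable {m : ℕ}

lemma upper_prob (hm : 0 < m) {f : ℕ} (hf : f ≤ 2 * m + 1) (hfm : m ≤ f) {s K : ℝ} (hs : 0 < s)
    (hs1 : s ≤ 1) (hK : 0 < K) (hns : (f : ℝ) ^ 2 ≤ (f.choose m : ℝ) * s) :
    (PP (Fin (2 * m + 1)) m) {A | s < omega A} ≤
      ENNReal.ofReal (25 * √((m : ℝ) + 1) / K) +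
        ENNReal.ofReal ((1 - 1 / (9 * (1 + K))) ^ (2 * m + 1 - f)) := by
  classical
  obtain ⟨p, hp⟩ : ∃ p : Fin (2 * m + 1) → Prop, p = fun i : Fin (2 * m + 1) => (i : ℕ) < f := ⟨_, rfl⟩
  have c1 : Fintype.card {i : Fin (2 * m + 1) // p i} = f := by
    have := Fintype.card_fin_lt_of_le hf
    rw [← this]
    apply Fintype.card_congr
    exact Equiv.subtypeEquivRight fun i => by rw [hp]
  have c2 : Fintype.card {i : Fin (2 * m + 1) // ¬ p i} = 2 * m + 1 - f := by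
    rw [Fintype.card_subtype_compl, c1, Fintype.card_fin]
  have c3 : Fintype.card (TT {i : Fin (2 * m + 1) // p i} m) = f.choose m := by
    unfold TT
    rw [Fintype.card_finset_len, c1]
  have key := none_le (m := m) (ι := {i : Fin (2 * m + 1) // p i}) (κ := {i : Fin (2 * m + 1) // ¬ p i})
    hm hs hs1 hK (by rw [c1, c3]; exact hns) (by rw [c3]; exact Nat.choose_pos hfm)
  rw [c2] at key
  refine le_trans ?_ key
  have hmp := measurePreserving_piEquivPiSubtypeProd (fun _ : Fin (2 * m + 1) => stdGaussian (EE m)) p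
  rw [← hmp.measure_preimage_equiv]
  refine measure_mono fun A hA => ?_
  simp only [mem_ofPred_eq] at hA
  intro k hk
  exact absurd (omega_le p A hs.le (k := k) hk) (not_le.mpr hA)

lemma choose_ge {m L : ℕ} (hL : 1 ≤ L) (hLm : L ≤ m) :
    (4 : ℝ) ^ (m + 1 - L) ≤ 2 * ((m : ℝ) + 1) * ((2 * m + 1 - L).choose m : ℝ) := by
  obtain ⟨a, ha⟩ : ∃ a, a = m + 1 - L := ⟨_, rfl⟩
  have ha1 : 0 < a := by omega
  have ham : a ≤ m := by omega
  have e1 : 2 * m + 1 - L = m + a := by omega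
  rw [← ha, e1]
  have h1 : 4 ^ a ≤ 2 * a * Nat.centralBinom a := Nat.four_pow_le_two_mul_self_mul_centralBinom a ha1
  have h2 : Nat.centralBinom a ≤ (m + a).choose m := by
    rw [Nat.centralBinom_eq_two_mul_choose, Nat.choose_symm_add]
    exact Nat.choose_le_choose a (by omega)
  have h3 : 4 ^ a ≤ 2 * (m + 1) * (m + a).choose m := by
    calc 4 ^ a ≤ 2 * a * Nat.centralBinom a := h1
      _ ≤ 2 * (m + 1) * (m + a).choose m := by gcongr; omega
  exact_mod_cast h3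

/-- **Upper bound for the typical size.** -/
theorem upper_tendsto {b δ : ℝ} (hb : 1 / 4 < b) (hδ : 0 < δ) :
    Tendsto (fun m : ℕ => (PP (Fin (2 * m + 1)) m) {A | δ * b ^ (m + 1) < omega A}) atTop (𝓝 0) := by
  -- choose `η`
  obtain ⟨η, hη0, hη1, hηb⟩ : ∃ η : ℝ, 0 < η ∧ η < 1 ∧ (4 : ℝ) ^ (η - 1) < b := by
    have h1 : Tendsto (fun η : ℝ => (4 : ℝ) ^ (η - 1)) (𝓝[>] 0) (𝓝 ((4 : ℝ) ^ ((0 : ℝ) - 1))) := by
      refine Tendsto.mono_left ?_ nhdsWithin_le_nhds
      have : Continuous fun η : ℝ => (4 : ℝ) ^ (η - 1) :=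
        Continuous.rpow continuous_const (by fun_prop) (fun _ => Or.inl (by norm_num))
      exact this.tendsto 0
    have h2 : (4 : ℝ) ^ ((0 : ℝ) - 1) < b := by
      rw [zero_sub, Real.rpow_neg_one]; linarith
    have h3 := (h1.eventually_lt_const h2).and (Ioo_mem_nhdsGT (show (0 : ℝ) < 1 by norm_num))
    obtain ⟨η, h4, h5⟩ := h3.exists
    exact ⟨η, h5.1, h5.2, h4⟩
  obtain ⟨L, hL⟩ : ∃ L : ℕ → ℕ, L = fun m : ℕ => ⌊η * ((m : ℝ) + 1)⌋₊ := ⟨_, rfl⟩
  obtain ⟨s, hs⟩ : ∃ s : ℕ → ℝ, s = fun m : ℕ => (2 * ((m : ℝ) + 1) * (2 * (m : ℝ) + 1) ^ 2) *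
    ((4 : ℝ) ^ (m + 1 - L m))⁻¹ := ⟨_, rfl⟩
  obtain ⟨y, hy⟩ : ∃ y : ℕ → ℝ, y = fun m : ℕ => √√((m : ℝ) + 1) := ⟨_, rfl⟩
  have hLle : ∀ m : ℕ, (L m : ℝ) ≤ η * ((m : ℝ) + 1) := fun m => by
    rw [hL]; exact Nat.floor_le (by positivity)
  have hLge : ∀ m : ℕ, η * ((m : ℝ) + 1) - 1 ≤ (L m : ℝ) := fun m => by
    rw [hL]; exact (Nat.sub_one_lt_floor _).le
  have hs0 : ∀ m, 0 < s m := fun m => by rw [hs]; positivity
  -- `s m` is small
  have hsle : ∀ m, s m ≤ 8 * (((m + 1 : ℕ) : ℝ) ^ 3 * ((4 : ℝ) ^ (η - 1)) ^ (m + 1)) := by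
    intro m
    have h1 : ((4 : ℝ) ^ (m + 1 - L m))⁻¹ ≤ ((4 : ℝ) ^ (η - 1)) ^ (m + 1) := by
      have h2 : L m ≤ m + 1 := by
        have := hLle m
        have h3 : (L m : ℝ) ≤ (m : ℝ) + 1 := by nlinarith [(Nat.cast_nonneg m : (0 : ℝ) ≤ m)]
        exact_mod_cast h3
      rw [← Real.rpow_natCast, ← Real.rpow_neg (by norm_num), ← Real.rpow_natCast,
        ← Real.rpow_mul (by norm_num)]
      apply Real.rpow_le_rpow_of_exponent_le (by norm_num)
      rw [Nat.cast_sub h2]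
      push_cast
      have := hLle m
      linarith
    have h2 : (2 * ((m : ℝ) + 1) * (2 * (m : ℝ) + 1) ^ 2) ≤ 8 * ((m + 1 : ℕ) : ℝ) ^ 3 := by
      push_cast
      have hm0 : (0 : ℝ) ≤ m := Nat.cast_nonneg m
      nlinarith [mul_nonneg hm0 hm0, mul_nonneg hm0 (mul_nonneg hm0 hm0)]
    rw [hs]
    simp only
    calc _ ≤ (8 * ((m + 1 : ℕ) : ℝ) ^ 3) * ((4 : ℝ) ^ (η - 1)) ^ (m + 1) := by gcongr
      _ = _ := by ring
  have hdecay : ∀ c : ℝ, 0 < c → c < 1 → Tendsto (fun m : ℕ => 8 * (((m + 1 : ℕ) : ℝ) ^ 3 * c ^ (m + 1)))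
      atTop (𝓝 0) := by
    intro c hc0 hc1
    have h1 := tendsto_pow_const_mul_const_pow_of_abs_lt_one 3 (r := c) (by rw [abs_of_pos hc0]; exact hc1)
    have h2 := (h1.comp (tendsto_add_atTop_nat 1)).const_mul 8
    rw [mul_zero] at h2
    exact h2
  have h4pos : 0 < (4 : ℝ) ^ (η - 1) := by positivity
  have ev1 : ∀ᶠ m in atTop, s m ≤ 1 := by
    have h1 : (4 : ℝ) ^ (η - 1) < 1 := Real.rpow_lt_one_of_one_lt_of_neg (by norm_num) (by linarith)
    filter_upwards [(hdecay _ h4pos h1).eventually_le_const (show (0 : ℝ) < 1 by norm_num)] with m hm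
    exact (hsle m).trans hm
  have hb0 : 0 < b := by linarith
  have ev2 : ∀ᶠ m in atTop, s m ≤ δ * b ^ (m + 1) := by
    have h1 : (4 : ℝ) ^ (η - 1) / b < 1 := by rw [div_lt_one hb0]; exact hηb
    filter_upwards [(hdecay _ (by positivity) h1).eventually_le_const hδ] with m hm
    refine (hsle m).trans ?_
    rw [div_pow] at hm
    have hbp : 0 < b ^ (m + 1) := by positivity
    calc 8 * (((m + 1 : ℕ) : ℝ) ^ 3 * ((4 : ℝ) ^ (η - 1)) ^ (m + 1))
        = 8 * (((m + 1 : ℕ) : ℝ) ^ 3 * (((4 : ℝ) ^ (η - 1)) ^ (m + 1) / b ^ (m + 1))) * b ^ (m + 1) := by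
          field_simp
      _ ≤ δ * b ^ (m + 1) := mul_le_mul_of_nonneg_right hm hbp.le
  have hm1 : Tendsto (fun m : ℕ => (m : ℝ) + 1) atTop atTop :=
    tendsto_atTop_add_const_right _ _ tendsto_natCast_atTop_atTop
  have hyt : Tendsto y atTop atTop := by
    rw [hy]
    exact Real.tendsto_sqrt_atTop.comp (Real.tendsto_sqrt_atTop.comp hm1)
  have hy4 : ∀ m, y m ^ 4 = (m : ℝ) + 1 := by
    intro m
    rw [hy]
    simp only
    have h1 : (0 : ℝ) ≤ (m : ℝ) + 1 := by positivity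
    calc √√((m : ℝ) + 1) ^ 4 = (√√((m : ℝ) + 1) ^ 2) ^ 2 := by ring
      _ = _ := by rw [Real.sq_sqrt (Real.sqrt_nonneg _), Real.sq_sqrt h1]
  have hy2 : ∀ m, y m ^ 2 = √((m : ℝ) + 1) := by
    intro m
    rw [hy]
    exact Real.sq_sqrt (Real.sqrt_nonneg _)
  have hy1 : ∀ m, 1 ≤ y m := by
    intro m
    rw [hy]
    apply Real.one_le_sqrt.mpr
    apply Real.one_le_sqrt.mpr
    have := (Nat.cast_nonneg m : (0 : ℝ) ≤ m)
    linarith
  -- the bound
  have evB : ∀ᶠ m : ℕ in atTop, (PP (Fin (2 * m + 1)) m) {A | δ * b ^ (m + 1) < omega A} ≤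
      ENNReal.ofReal ((y m)⁻¹ + Real.exp (-((η * y m - 1) / 234))) := by
    have evL : ∀ᶠ m : ℕ in atTop, 1 ≤ L m := by
      filter_upwards [hm1.eventually_ge_atTop (2 / η)] with m hm
      have h1 := hLge m
      have h2 : 2 ≤ η * ((m : ℝ) + 1) := by
        rw [div_le_iff₀ hη0] at hm
        linarith
      have : (1 : ℝ) ≤ L m := by linarith
      exact_mod_cast this
    have evL2 : ∀ᶠ m : ℕ in atTop, L m ≤ m := by
      filter_upwards [hm1.eventually_ge_atTop (1 / (1 - η))] with m hm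
      have h1 := hLle m
      have h2 : 0 < 1 - η := by linarith
      rw [div_le_iff₀ h2] at hm
      have : (L m : ℝ) ≤ m := by linarith
      exact_mod_cast this
    filter_upwards [ev1, ev2, evL, evL2, eventually_gt_atTop 0] with m h1 h2 h3 h4 h5
    obtain ⟨K, hK⟩ : ∃ K : ℝ, K = 25 * y m ^ 3 := ⟨_, rfl⟩
    have hypos : 0 < y m := by linarith [hy1 m]
    have hK0 : 0 < K := by rw [hK]; positivity
    have hf1 : 2 * m + 1 - L m ≤ 2 * m + 1 := Nat.sub_le _ _
    have hf2 : m ≤ 2 * m + 1 - L m := by omega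
    have hns : (((2 * m + 1 - L m : ℕ)) : ℝ) ^ 2 ≤ ((2 * m + 1 - L m).choose m : ℝ) * s m := by
      have g1 := choose_ge h3 h4
      have g2 : (((2 * m + 1 - L m : ℕ)) : ℝ) ≤ 2 * (m : ℝ) + 1 := by
        have : 2 * m + 1 - L m ≤ 2 * m + 1 := Nat.sub_le _ _
        exact_mod_cast this
      have g3 : (0 : ℝ) ≤ ((2 * m + 1 - L m : ℕ) : ℝ) := Nat.cast_nonneg _
      have hp4 : (0 : ℝ) < (4 : ℝ) ^ (m + 1 - L m) := by positivity
      rw [hs]
      simp only
      calc (((2 * m + 1 - L m : ℕ)) : ℝ) ^ 2 ≤ (2 * (m : ℝ) + 1) ^ 2 := by gcongr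
        _ = (2 * (m : ℝ) + 1) ^ 2 * ((4 : ℝ) ^ (m + 1 - L m) * ((4 : ℝ) ^ (m + 1 - L m))⁻¹) := by
            rw [mul_inv_cancel₀ hp4.ne', mul_one]
        _ ≤ (2 * (m : ℝ) + 1) ^ 2 * ((2 * ((m : ℝ) + 1) * ((2 * m + 1 - L m).choose m : ℝ)) *
              ((4 : ℝ) ^ (m + 1 - L m))⁻¹) := by gcongr
        _ = _ := by ring
    have key := upper_prob h5 hf1 hf2 (hs0 m) h1 hK0 hns
    have hsub : {A : Fin (2 * m + 1) → EE m | δ * b ^ (m + 1) < omega A} ⊆ {A | s m < omega A} := by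
      intro A hA
      simp only [mem_ofPred_eq] at hA ⊢
      exact lt_of_le_of_lt h2 hA
    refine (measure_mono hsub).trans (key.trans ?_)
    have e1 : 2 * m + 1 - (2 * m + 1 - L m) = L m := by omega
    rw [e1, ← ENNReal.ofReal_add (by positivity)]
    · apply ENNReal.ofReal_le_ofReal
      refine add_le_add ?_ ?_
      · rw [← hy2, hK]
        apply le_of_eq
        field_simp
      · have q1 : 1 - 1 / (9 * (1 + K)) ≤ Real.exp (-(1 / (9 * (1 + K)))) := by
          have := Real.add_one_le_exp (-(1 / (9 * (1 + K))))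
          linarith
        have q0 : 0 ≤ 1 - 1 / (9 * (1 + K)) := by
          rw [sub_nonneg, div_le_one (by positivity)]
          linarith
        calc (1 - 1 / (9 * (1 + K))) ^ (L m) ≤ (Real.exp (-(1 / (9 * (1 + K))))) ^ (L m) := by gcongr
          _ = Real.exp (-((L m : ℝ) / (9 * (1 + K)))) := by
              rw [← Real.exp_nat_mul]
              congr 1
              ring
          _ ≤ _ := by
              apply Real.exp_le_exp.mpr
              apply neg_le_neg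
              have y3 : 1 ≤ y m ^ 3 := one_le_pow₀ (hy1 m)
              have k1 : 9 * (1 + K) ≤ 234 * y m ^ 3 := by rw [hK]; linarith
              have k2 : (η * y m - 1) * y m ^ 3 ≤ L m := by
                have := hLge m
                rw [← hy4] at this
                nlinarith
              rcases le_or_gt (η * y m - 1) 0 with hneg | hpos
              · refine le_trans (b := 0) ?_ (by positivity)
                linarith
              · rw [div_le_div_iff₀ (by norm_num) (by positivity)]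
                calc (η * y m - 1) * (9 * (1 + K)) ≤ (η * y m - 1) * (234 * y m ^ 3) := by gcongr
                  _ = ((η * y m - 1) * y m ^ 3) * 234 := by ring
                  _ ≤ _ := by gcongr
    · have q0 : 0 ≤ 1 - 1 / (9 * (1 + K)) := by
        rw [sub_nonneg, div_le_one (by positivity)]
        linarith
      positivity
  have hlim : Tendsto (fun m => ENNReal.ofReal ((y m)⁻¹ + Real.exp (-((η * y m - 1) / 234)))) atTop
      (𝓝 0) := by
    have l1 : Tendsto (fun m => (y m)⁻¹) atTop (𝓝 0) := tendsto_inv_atTop_zero.comp hyt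
    have l2 : Tendsto (fun m => Real.exp (-((η * y m - 1) / 234))) atTop (𝓝 0) := by
      refine Real.tendsto_exp_neg_atTop_nhds_zero.comp ?_
      refine Tendsto.atTop_div_const (by norm_num) ?_
      exact tendsto_atTop_add_const_right _ (-1) (hyt.const_mul_atTop hη0)
    have l3 := l1.add l2
    rw [add_zero] at l3
    have l4 := ENNReal.tendsto_ofReal l3
    rwa [ENNReal.ofReal_zero] at l4
  exact tendsto_of_tendsto_of_tendsto_of_le_of_le' tendsto_const_nhds hlim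
    (Eventually.of_forall fun _ => bot_le) evB

/-- **Lower bound for the typical size.** -/
theorem lower_tendsto {b C : ℝ} (hb0 : 0 < b) (hb : b < 1 / 4) (hC : 0 < C) (k : ℕ) :
    Tendsto (fun m : ℕ => (PP (Fin (2 * m + 1)) m) {A | omega A < C * ((m : ℝ) + 1) ^ k * b ^ (m + 1)})
      atTop (𝓝 0) := by
  have h1 : ∀ m : ℕ, (PP (Fin (2 * m + 1)) m) {A | omega A < C * ((m : ℝ) + 1) ^ k * b ^ (m + 1)} ≤
      ENNReal.ofReal (C * (((m + 1 : ℕ) : ℝ) ^ (k + 2) * (4 * b) ^ (m + 1))) := by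
    intro m
    refine (lower_prob (by positivity)).trans ?_
    apply ENNReal.ofReal_le_ofReal
    push_cast
    have h2 : (4 : ℝ) ^ m ≤ 4 ^ (m + 1) := pow_le_pow_right₀ (by norm_num) (by omega)
    calc (4 : ℝ) ^ m * ((m : ℝ) + 1) ^ 2 * (C * ((m : ℝ) + 1) ^ k * b ^ (m + 1))
        ≤ (4 : ℝ) ^ (m + 1) * ((m : ℝ) + 1) ^ 2 * (C * ((m : ℝ) + 1) ^ k * b ^ (m + 1)) := by gcongr
      _ = _ := by rw [mul_pow]; ring
  have h2 := tendsto_pow_const_mul_const_pow_of_abs_lt_one (k + 2) (r := 4 * b)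
    (by rw [abs_of_pos (by positivity)]; linarith)
  have h3 := (h2.comp (tendsto_add_atTop_nat 1)).const_mul C
  rw [mul_zero] at h3
  have h4 := ENNReal.tendsto_ofReal h3
  rw [ENNReal.ofReal_zero] at h4
  exact tendsto_of_tendsto_of_tendsto_of_le_of_le tendsto_const_nhds h4 (fun _ => bot_le) h1

/-- the largest row norm -/
noncomputable def mx (A : Fin (2 * m + 1) → EE m) : ℝ := ⨆ k, ‖A k‖

lemma le_mx (A : Fin (2 * m + 1) → EE m) (k : Fin (2 * m + 1)) : ‖A k‖ ≤ mx A :=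
  le_ciSup (Finite.bddAbove_range fun k => ‖A k‖) k

lemma mx_small (m : ℕ) {δ : ℝ} :
    (PP (Fin (2 * m + 1)) m) {A | mx A < δ} ≤ ENNReal.ofReal δ := by
  obtain ⟨e, he⟩ : ∃ e : EE m, ‖e‖ = 1 := ⟨EuclideanSpace.single 0 1, by simp⟩
  have h1 : {A : Fin (2 * m + 1) → EE m | mx A < δ} ⊆ (fun A => A 0) ⁻¹' {v | |(inner ℝ e v : ℝ)| ≤ δ} := by
    intro A hA
    simp only [mem_ofPred_eq] at hA
    simp only [mem_preimage, mem_ofPred_eq]
    refine (abs_real_inner_le_norm _ _).trans ?_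
    rw [he, one_mul]
    exact (le_mx A 0).trans hA.le
  refine (measure_mono h1).trans ?_
  have hmp := measurePreserving_eval (fun _ : Fin (2 * m + 1) => stdGaussian (EE m)) 0
  have hms : MeasurableSet {v : EE m | |(inner ℝ e v : ℝ)| ≤ δ} :=
    measurableSet_le (by fun_prop) measurable_const
  calc (PP (Fin (2 * m + 1)) m) ((fun A => A 0) ⁻¹' {v | |(inner ℝ e v : ℝ)| ≤ δ})
      = stdGaussian (EE m) {v | |(inner ℝ e v : ℝ)| ≤ δ} :=
        hmp.measure_preimage hms.nullMeasurableSet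
    _ ≤ _ := slab_le he δ

lemma mx_large (m : ℕ) {R : ℝ} (hR : 0 < R) :
    (PP (Fin (2 * m + 1)) m) {A | R < mx A} ≤
      ENNReal.ofReal ((2 * (m : ℝ) + 1) * (((m : ℝ) + 1) / R ^ 2)) := by
  have h1 : {A : Fin (2 * m + 1) → EE m | R < mx A} ⊆ ⋃ k, (fun A => A k) ⁻¹' {v | R ^ 2 ≤ ‖v‖ ^ 2} := by
    intro A hA
    simp only [mem_ofPred_eq] at hA
    obtain ⟨k, hk⟩ := exists_lt_of_lt_ciSup hA
    refine mem_iUnion.mpr ⟨k, ?_⟩
    simp only [mem_preimage, mem_ofPred_eq]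
    exact pow_le_pow_left₀ hR.le hk.le 2
  refine (measure_mono h1).trans ((measure_iUnion_fintype_le _ _).trans ?_)
  have h2 : ∀ k : Fin (2 * m + 1), (PP (Fin (2 * m + 1)) m) ((fun A => A k) ⁻¹' {v | R ^ 2 ≤ ‖v‖ ^ 2})
      ≤ ENNReal.ofReal (((m : ℝ) + 1) / R ^ 2) := by
    intro k
    have hmp := measurePreserving_eval (fun _ : Fin (2 * m + 1) => stdGaussian (EE m)) k
    have hms : MeasurableSet {v : EE m | R ^ 2 ≤ ‖v‖ ^ 2} :=
      measurableSet_le measurable_const (by fun_prop)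
    have hf : Measurable fun v : EE m => ENNReal.ofReal (‖v‖ ^ 2) := by fun_prop
    have hR2 : 0 < R ^ 2 := by positivity
    calc (PP (Fin (2 * m + 1)) m) ((fun A => A k) ⁻¹' {v | R ^ 2 ≤ ‖v‖ ^ 2})
        = stdGaussian (EE m) {v | R ^ 2 ≤ ‖v‖ ^ 2} := hmp.measure_preimage hms.nullMeasurableSet
      _ ≤ stdGaussian (EE m) {v | ENNReal.ofReal (R ^ 2) ≤ ENNReal.ofReal (‖v‖ ^ 2)} := by
          refine measure_mono fun v hv => ?_
          simp only [mem_ofPred_eq] at hv ⊢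
          exact ENNReal.ofReal_le_ofReal hv
      _ ≤ (∫⁻ v, ENNReal.ofReal (‖v‖ ^ 2) ∂(stdGaussian (EE m))) / ENNReal.ofReal (R ^ 2) := by
          refine meas_ge_le_lintegral_div hf.aemeasurable ?_ ENNReal.ofReal_ne_top
          rw [Ne, ENNReal.ofReal_eq_zero, not_le]; exact hR2
      _ = _ := by
          rw [lintegral_norm_sq, finrank_euclideanSpace_fin, ← ENNReal.ofReal_natCast,
            ← ENNReal.ofReal_div_of_pos hR2]
          push_cast
          rfl
  calc _ ≤ ∑ _k : Fin (2 * m + 1), ENNReal.ofReal (((m : ℝ) + 1) / R ^ 2) :=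
        Finset.sum_le_sum fun k _ => h2 k
    _ = _ := by
        rw [Finset.sum_const, Finset.card_univ, Fintype.card_fin, nsmul_eq_mul,
          ← ENNReal.ofReal_natCast, ← ENNReal.ofReal_mul (by positivity)]
        push_cast
        rfl

theorem upper_mx {β : ℝ} (hβ : 1 / 4 < β) :
    Tendsto (fun m : ℕ => (PP (Fin (2 * m + 1)) m) {A | mx A * β ^ (m + 1) < omega A}) atTop (𝓝 0) := by
  rw [ENNReal.tendsto_nhds_zero]
  intro ε hε
  obtain ⟨δ, hδ0, hδ⟩ : ∃ δ : ℝ, 0 < δ ∧ ENNReal.ofReal δ ≤ ε / 2 := by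
    rcases eq_or_ne ε ⊤ with rfl | htop
    · exact ⟨1, one_pos, by rw [ENNReal.top_div_of_ne_top (by norm_num)]; exact le_top⟩
    · refine ⟨(ε / 2).toReal, ENNReal.toReal_pos ?_ ?_, ENNReal.ofReal_toReal_le⟩
      · simpa using hε.ne'
      · exact ENNReal.div_ne_top htop (by norm_num)
  have h1 := (ENNReal.tendsto_nhds_zero.mp (upper_tendsto hβ hδ0)) (ε / 2)
    (ENNReal.div_pos hε.ne' (by norm_num))
  have hβ0 : 0 < β := by linarith
  filter_upwards [h1] with m hm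
  have hsub : {A : Fin (2 * m + 1) → EE m | mx A * β ^ (m + 1) < omega A} ⊆
      {A | mx A < δ} ∪ {A | δ * β ^ (m + 1) < omega A} := by
    intro A hA
    simp only [mem_ofPred_eq, mem_union] at hA ⊢
    rcases lt_or_ge (mx A) δ with h | h
    · exact Or.inl h
    · right
      refine lt_of_le_of_lt ?_ hA
      gcongr
  calc _ ≤ _ := measure_mono hsub
    _ ≤ _ := measure_union_le _ _
    _ ≤ ε / 2 + ε / 2 := add_le_add ((mx_small m).trans hδ) hm
    _ = ε := ENNReal.add_halves ε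

theorem lower_mx {β C : ℝ} (hβ0 : 0 < β) (hβ : β < 1 / 4) (hC : 0 < C) :
    Tendsto (fun m : ℕ => (PP (Fin (2 * m + 1)) m) {A | omega A ≤ C * mx A * β ^ (m + 1)}) atTop
      (𝓝 0) := by
  have h1 := lower_tendsto (C := C + 1) hβ0 hβ (by linarith) 2
  have h2 : Tendsto (fun m : ℕ => ENNReal.ofReal (2 * ((m : ℝ) + 1)⁻¹)) atTop (𝓝 0) := by
    have hm1 : Tendsto (fun m : ℕ => (m : ℝ) + 1) atTop atTop :=
      tendsto_atTop_add_const_right _ _ tendsto_natCast_atTop_atTop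
    have h3 := (tendsto_inv_atTop_zero.comp hm1).const_mul 2
    rw [mul_zero] at h3
    have h4 := ENNReal.tendsto_ofReal h3
    rwa [ENNReal.ofReal_zero] at h4
  have h3 := h2.add h1
  rw [add_zero] at h3
  refine tendsto_of_tendsto_of_tendsto_of_le_of_le tendsto_const_nhds h3 (fun _ => bot_le) fun m => ?_
  have hm1 : (0 : ℝ) < (m : ℝ) + 1 := by positivity
  have hsub : {A : Fin (2 * m + 1) → EE m | omega A ≤ C * mx A * β ^ (m + 1)} ⊆
      {A | ((m : ℝ) + 1) ^ 2 < mx A} ∪ {A | omega A < (C + 1) * ((m : ℝ) + 1) ^ 2 * β ^ (m + 1)} := by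
    intro A hA
    simp only [mem_ofPred_eq, mem_union] at hA ⊢
    rcases lt_or_ge (((m : ℝ) + 1) ^ 2) (mx A) with h | h
    · exact Or.inl h
    · right
      have hbp : 0 < β ^ (m + 1) := by positivity
      have : C * mx A * β ^ (m + 1) ≤ C * ((m : ℝ) + 1) ^ 2 * β ^ (m + 1) := by gcongr
      have h5 : 0 < ((m : ℝ) + 1) ^ 2 * β ^ (m + 1) := by positivity
      nlinarith
  calc _ ≤ _ := measure_mono hsub
    _ ≤ _ := measure_union_le _ _
    _ ≤ _ := by
        refine add_le_add ((mx_large m (by positivity)).trans ?_) le_rfl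
        apply ENNReal.ofReal_le_ofReal
        rw [← pow_mul, ← div_eq_mul_inv, mul_div_assoc', div_le_div_iff₀ (by positivity) hm1]
        have hm0 : (0 : ℝ) ≤ m := Nat.cast_nonneg m
        have h6 : (2 * (m : ℝ) + 1) * ((m : ℝ) + 1) * ((m : ℝ) + 1) ≤ 2 * ((m : ℝ) + 1) ^ 3 := by
          nlinarith [mul_nonneg hm0 hm0]
        have h7 : ((m : ℝ) + 1) ^ 3 ≤ ((m : ℝ) + 1) ^ (2 * 2) :=
          pow_le_pow_right₀ (by linarith) (by norm_num)
        linarith

theorem log_tendsto {ε : ℝ} (hε : 0 < ε) :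
    Tendsto (fun m : ℕ => (PP (Fin (2 * m + 1)) m)
      {A | ε < |Real.log (omega A) / ((m : ℝ) + 1) + Real.log 4|}) atTop (𝓝 0) := by
  have e1 : 1 / 4 < Real.exp ε / 4 := by
    have := Real.add_one_lt_exp hε.ne'
    linarith
  have e2 : Real.exp (-ε) / 4 < 1 / 4 := by
    have : Real.exp (-ε) < 1 := by
      rw [← Real.exp_zero]; exact Real.exp_lt_exp.mpr (by linarith)
    linarith
  have h1 := upper_tendsto e1 one_pos
  have h2 := lower_tendsto (b := Real.exp (-ε) / 4) (by positivity) e2 one_pos 0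
  have h3 := h1.add h2
  rw [add_zero] at h3
  refine tendsto_of_tendsto_of_tendsto_of_le_of_le tendsto_const_nhds h3 (fun _ => bot_le) fun m => ?_
  refine (measure_mono ?_).trans (measure_union_le _ _)
  intro A hA
  simp only [mem_ofPred_eq, mem_union, one_mul, pow_zero, mul_one] at hA ⊢
  by_contra hcon
  push Not at hcon
  obtain ⟨c1, c2⟩ := hcon
  apply absurd hA (not_lt.mpr _)
  have hm1 : (0 : ℝ) < (m : ℝ) + 1 := by positivity
  have hpos : 0 < omega A := lt_of_lt_of_le (by positivity) c2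
  have hlog : ∀ a : ℝ, Real.log ((Real.exp a / 4) ^ (m + 1)) = ((m : ℝ) + 1) * (a - Real.log 4) := by
    intro a
    rw [Real.log_pow, Real.log_div (Real.exp_pos a).ne' (by norm_num), Real.log_exp]
    push_cast; ring
  have u1 := Real.log_le_log hpos c1
  have u2 := Real.log_le_log (by positivity) c2
  rw [hlog] at u1 u2
  rw [abs_le]
  constructor
  · have : -ε - Real.log 4 ≤ Real.log (omega A) / ((m : ℝ) + 1) := by
      rw [le_div_iff₀ hm1]; linarith
    linarith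
  · have : Real.log (omega A) / ((m : ℝ) + 1) ≤ ε - Real.log 4 := by
      rw [div_le_iff₀ hm1]; linarith
    linarith

end Q299.PR
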