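import Mathlib

/-!
Facts about the standard Gaussian vector.
-/

namespace Q299.PR

open MeasureTheory ProbabilityTheory Set

/-! ### the standard normal law on the line -/

lemma pdf_le (x : ℝ) : gaussianPDFReal 0 1 x ≤ 1 / 2 := by
  unfold gaussianPDFReal
  have h1 : Real.exp (-(x - 0) ^ 2 / (2 * ((1 : NNReal) : ℝ))) ≤ 1 := by
    rw [Real.exp_le_one_iff]
    have : 0 ≤ (x - 0) ^ 2 := sq_nonneg _
    simp only [NNReal.coe_one, mul_one]
    apply div_nonpos_of_nonpos_of_nonneg <;> linarith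
  have h2 : (√(2 * Real.pi * ((1 : NNReal) : ℝ)))⁻¹ ≤ 1 / 2 := by
    rw [one_div]
    apply inv_anti₀ (by norm_num)
    apply Real.le_sqrt_of_sq_le
    have := Real.pi_gt_three
    simp only [NNReal.coe_one, mul_one]
    linarith
  calc _ ≤ 1 / 2 * 1 := mul_le_mul h2 h1 (Real.exp_pos _).le (by norm_num)
    _ = _ := by ring

lemma N_Icc_le (a b : ℝ) : gaussianReal 0 1 (Icc a b) ≤ ENNReal.ofReal ((b - a) / 2) := by
  rw [gaussianReal_apply 0 one_ne_zero]
  calc ∫⁻ x in Icc a b, gaussianPDF 0 1 x ≤ ∫⁻ _x in Icc a b, ENNReal.ofReal (1 / 2) := by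
        refine lintegral_mono fun x => ?_
        exact ENNReal.ofReal_le_ofReal (pdf_le x)
    _ = ENNReal.ofReal (1 / 2) * ENNReal.ofReal (b - a) := by
        rw [lintegral_const, Measure.restrict_apply_univ, Real.volume_Icc]
    _ = _ := by
        rw [← ENNReal.ofReal_mul (by norm_num)]
        congr 1; ring

lemma pdf_ge {x : ℝ} (hx : |x| ≤ 1) : 1 / 6 ≤ gaussianPDFReal 0 1 x := by
  unfold gaussianPDFReal
  have hx2 : x ^ 2 ≤ 1 := by
    rw [← sq_abs]; nlinarith [abs_nonneg x]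
  have h1 : 1 / 2 ≤ Real.exp (-(x - 0) ^ 2 / (2 * ((1 : NNReal) : ℝ))) := by
    have := Real.add_one_le_exp (-(x - 0) ^ 2 / (2 * ((1 : NNReal) : ℝ)))
    simp only [NNReal.coe_one, mul_one, sub_zero] at this ⊢
    linarith
  have h2 : 1 / 3 ≤ (√(2 * Real.pi * ((1 : NNReal) : ℝ)))⁻¹ := by
    rw [one_div]
    apply inv_anti₀ (by positivity)
    rw [Real.sqrt_le_left (by norm_num)]
    have := Real.pi_lt_d2
    simp only [NNReal.coe_one, mul_one]
    linarith
  calc (1 / 6 : ℝ) = 1 / 3 * (1 / 2) := by norm_num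
    _ ≤ _ := mul_le_mul h2 h1 (by norm_num) (by positivity)

lemma N_Icc_ge {s : ℝ} (_hs : 0 ≤ s) (hs1 : s ≤ 1) :
    ENNReal.ofReal (s / 3) ≤ gaussianReal 0 1 (Icc (-s) s) := by
  rw [gaussianReal_apply 0 one_ne_zero]
  calc ENNReal.ofReal (s / 3) = ENNReal.ofReal (1 / 6) * ENNReal.ofReal (s - -s) := by
        rw [← ENNReal.ofReal_mul (by norm_num)]
        congr 1; ring
    _ = ∫⁻ _x in Icc (-s) s, ENNReal.ofReal (1 / 6) := by
        rw [lintegral_const, Measure.restrict_apply_univ, Real.volume_Icc]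
    _ ≤ _ := by
        refine setLIntegral_mono' measurableSet_Icc fun x hx => ?_
        refine ENNReal.ofReal_le_ofReal (pdf_ge ?_)
        rw [abs_le]
        exact ⟨by linarith [hx.1], by linarith [hx.2]⟩

lemma abs_int : IntervalIntegrable (fun x : ℝ => |x| ^ (-(2 / 3) : ℝ)) volume (-1) 1 ∧
    IntervalIntegrable (fun x : ℝ => |x| ^ (-(2 / 3) : ℝ)) volume (-1) 0 ∧
    IntervalIntegrable (fun x : ℝ => |x| ^ (-(2 / 3) : ℝ)) volume 0 1 := by
  have h1 : IntervalIntegrable (fun x : ℝ => |x| ^ (-(2 / 3) : ℝ)) volume 0 1 := by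
    refine (intervalIntegral.intervalIntegrable_rpow' (r := -(2 / 3)) (by norm_num)).congr ?_
    intro x hx
    rw [uIoc_of_le (by norm_num)] at hx
    simp only
    rw [abs_of_pos hx.1]
  have h2 := h1.comp_sub_left 0 (by simp)
  simp only [zero_sub, abs_neg, sub_zero] at h2
  exact ⟨h2.symm.trans h1, h2.symm, h1⟩

lemma abs_val : ∫ x in (-1 : ℝ)..1, |x| ^ (-(2 / 3) : ℝ) = 6 := by
  obtain ⟨_, h1, h2⟩ := abs_int
  rw [← intervalIntegral.integral_add_adjacent_intervals h1 h2]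
  have e2 : ∫ x in (0 : ℝ)..1, |x| ^ (-(2 / 3) : ℝ) = 3 := by
    rw [intervalIntegral.integral_congr (g := fun x => x ^ (-(2 / 3) : ℝ))]
    · rw [integral_rpow (Or.inl (by norm_num))]
      norm_num
    · intro x hx
      rw [uIcc_of_le (by norm_num)] at hx
      simp only
      rw [abs_of_nonneg hx.1]
  have e1 : ∫ x in (-1 : ℝ)..0, |x| ^ (-(2 / 3) : ℝ) = 3 := by
    have := intervalIntegral.integral_comp_neg (a := -1) (b := 0) (fun x : ℝ => |x| ^ (-(2 / 3) : ℝ))
    simp only [abs_neg, neg_neg, neg_zero] at this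
    exact this.trans e2
  rw [e1, e2]; norm_num

/-- negative moment -/
lemma N_neg_moment : ∫⁻ x, ENNReal.ofReal (|x| ^ (-(2 / 3) : ℝ)) ∂(gaussianReal 0 1) ≤ 4 := by
  have hm : Measurable fun x : ℝ => ENNReal.ofReal (|x| ^ (-(2 / 3) : ℝ)) := by fun_prop
  have h1 : ∀ x : ℝ, ENNReal.ofReal (|x| ^ (-(2 / 3) : ℝ)) ≤
      (Icc (-1 : ℝ) 1).indicator (fun x => ENNReal.ofReal (|x| ^ (-(2 / 3) : ℝ))) x + 1 := by
    intro x
    by_cases hx : x ∈ Icc (-1 : ℝ) 1
    · rw [indicator_of_mem hx]; exact le_self_add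
    · rw [indicator_of_notMem hx, zero_add, ← ENNReal.ofReal_one]
      refine ENNReal.ofReal_le_ofReal ?_
      have hx1 : 1 ≤ |x| := by
        by_contra hcon
        push Not at hcon
        rw [abs_lt] at hcon
        exact hx ⟨hcon.1.le, hcon.2.le⟩
      exact Real.rpow_le_one_of_one_le_of_nonpos hx1 (by norm_num)
  refine (lintegral_mono h1).trans ?_
  rw [lintegral_add_right _ measurable_const, lintegral_const, measure_univ, mul_one,
    lintegral_indicator measurableSet_Icc]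
  have h2 : ∫⁻ x in Icc (-1 : ℝ) 1, ENNReal.ofReal (|x| ^ (-(2 / 3) : ℝ)) ∂(gaussianReal 0 1)
      ≤ ENNReal.ofReal 3 := by
    rw [gaussianReal_of_var_ne_zero 0 one_ne_zero,
      setLIntegral_withDensity_eq_setLIntegral_mul _ (measurable_gaussianPDF 0 1) hm
        measurableSet_Icc]
    calc _ ≤ ∫⁻ x in Icc (-1 : ℝ) 1, ENNReal.ofReal ((1 / 2) * |x| ^ (-(2 / 3) : ℝ)) := by
          refine lintegral_mono fun x => ?_
          simp only [Pi.mul_apply]
          rw [ENNReal.ofReal_mul (by norm_num)]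
          exact mul_le_mul_left (ENNReal.ofReal_le_ofReal (pdf_le x)) _
      _ = ENNReal.ofReal (∫ x in Icc (-1 : ℝ) 1, (1 / 2) * |x| ^ (-(2 / 3) : ℝ)) := by
          rw [ofReal_integral_eq_lintegral_ofReal]
          · have h3 := (intervalIntegrable_iff_integrableOn_Icc_of_le (by norm_num)).mp abs_int.1
            exact h3.const_mul _
          · exact Filter.Eventually.of_forall fun x => by positivity
      _ ≤ _ := by
          refine ENNReal.ofReal_le_ofReal ?_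
          rw [integral_const_mul, integral_Icc_eq_integral_Ioc,
            ← intervalIntegral.integral_of_le (by norm_num), abs_val]
          norm_num
  calc _ ≤ ENNReal.ofReal 3 + 1 := by gcongr
    _ = 4 := by
        rw [← ENNReal.ofReal_one, ← ENNReal.ofReal_add (by norm_num) (by norm_num)]
        norm_num

/-! ### the standard Gaussian vector -/

variable {E : Type*} [NormedAddCommGroup E] [InnerProductSpace ℝ E] [FiniteDimensional ℝ E]
  [MeasurableSpace E] [BorelSpace E]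

lemma map_inner {e : E} (he : ‖e‖ = 1) :
    (stdGaussian E).map (fun v => inner ℝ e v) = gaussianReal 0 1 := by
  have h1 := IsGaussian.map_eq_gaussianReal (μ := stdGaussian E) (innerSL ℝ e)
  rw [variance_dual_stdGaussian, integral_strongDual_stdGaussian, innerSL_apply_norm, he] at h1
  have h2 : (1 ^ 2 : ℝ).toNNReal = 1 := by simp
  rw [h2] at h1
  exact h1

lemma meas_inner (e : E) : Measurable fun v : E => (inner ℝ e v : ℝ) := by fun_prop

lemma slab_le {e : E} (he : ‖e‖ = 1) (s : ℝ) :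
    stdGaussian E {v | |inner ℝ e v| ≤ s} ≤ ENNReal.ofReal s := by
  have h1 : {v : E | |inner ℝ e v| ≤ s} = (fun v => (inner ℝ e v : ℝ)) ⁻¹' (Icc (-s) s) := by
    ext v; simp only [mem_ofPred_eq, mem_preimage, mem_Icc, abs_le]
  rw [h1, ← Measure.map_apply (meas_inner e) measurableSet_Icc, map_inner he]
  refine (N_Icc_le _ _).trans (le_of_eq ?_)
  congr 1; ring

lemma slab_ge {e : E} (he : ‖e‖ = 1) {s : ℝ} (hs : 0 ≤ s) (hs1 : s ≤ 1) :
    ENNReal.ofReal (s / 3) ≤ stdGaussian E {v | |inner ℝ e v| ≤ s} := by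
  have h1 : {v : E | |inner ℝ e v| ≤ s} = (fun v => (inner ℝ e v : ℝ)) ⁻¹' (Icc (-s) s) := by
    ext v; simp only [mem_ofPred_eq, mem_preimage, mem_Icc, abs_le]
  rw [h1, ← Measure.map_apply (meas_inner e) measurableSet_Icc, map_inner he]
  exact N_Icc_ge hs hs1

lemma indep_inner {e w : E} (hew : inner ℝ e w = 0) :
    IndepFun (fun v : E => (inner ℝ e v : ℝ)) (fun v : E => (inner ℝ w v : ℝ)) (stdGaussian E) := by
  refine HasGaussianLaw.indepFun_of_covariance_eq_zero ?_ ?_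
  · have h1 : HasGaussianLaw (id : E → E) (stdGaussian E) := IsGaussian.hasGaussianLaw_id
    exact h1.map_fun ((innerSL ℝ e).prod (innerSL ℝ w))
  · have h1 := covarianceBilin_apply_eq_cov (μ := stdGaussian E) IsGaussian.memLp_two_id e w
    rw [covarianceBilin_stdGaussian] at h1
    rw [← h1]
    exact hew

/-- two slabs -/
lemma two_slabs {e w : E} (he : ‖e‖ = 1) (hw : ‖w‖ = 1) (hew : inner ℝ e w = 0) {ρ σ s : ℝ}
    (hσ : 0 < σ) (hs : 0 ≤ s) :
    stdGaussian E {v | |inner ℝ e v| ≤ s ∧ |ρ * inner ℝ e v + σ * inner ℝ w v| ≤ s}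
      ≤ ENNReal.ofReal (s * (s / σ)) := by
  have h1 : (stdGaussian E).map (fun v => ((inner ℝ e v : ℝ), (inner ℝ w v : ℝ)))
      = (gaussianReal 0 1).prod (gaussianReal 0 1) := by
    have := (indepFun_iff_map_prod_eq_prod_map_map (meas_inner e).aemeasurable
      (meas_inner w).aemeasurable).mp (indep_inner hew)
    rw [this, map_inner he, map_inner hw]
  obtain ⟨Q, hQ⟩ : ∃ Q : Set (ℝ × ℝ), Q = {p | |p.1| ≤ s ∧ |ρ * p.1 + σ * p.2| ≤ s} := ⟨_, rfl⟩
  have hQm : MeasurableSet Q := by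
    rw [hQ]
    have c1 : Continuous fun p : ℝ × ℝ => |p.1| := by fun_prop
    have c2 : Continuous fun p : ℝ × ℝ => |ρ * p.1 + σ * p.2| := by fun_prop
    exact ((isClosed_le c1 continuous_const).inter (isClosed_le c2 continuous_const)).measurableSet
  have h2 : {v : E | |inner ℝ e v| ≤ s ∧ |ρ * inner ℝ e v + σ * inner ℝ w v| ≤ s}
      = (fun v => ((inner ℝ e v : ℝ), (inner ℝ w v : ℝ))) ⁻¹' Q := by
    rw [hQ]; rfl
  rw [h2, ← Measure.map_apply ((meas_inner e).prodMk (meas_inner w)) hQm, h1,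
    Measure.prod_apply hQm]
  have h3 : ∀ x : ℝ, gaussianReal 0 1 (Prod.mk x ⁻¹' Q)
      ≤ (Icc (-s) s).indicator (fun _ => ENNReal.ofReal (s / σ)) x := by
    intro x
    by_cases hx : x ∈ Icc (-s) s
    · rw [indicator_of_mem hx]
      have h4 : Prod.mk x ⁻¹' Q ⊆ Icc ((-s - ρ * x) / σ) ((s - ρ * x) / σ) := by
        intro y hy
        rw [hQ] at hy
        have h5 := abs_le.mp hy.2
        simp only at h5
        rw [mem_Icc, div_le_iff₀ hσ, le_div_iff₀ hσ]
        constructor <;> nlinarith [h5.1, h5.2]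
      refine (measure_mono h4).trans ((N_Icc_le _ _).trans (le_of_eq ?_))
      congr 1
      field_simp
      ring
    · rw [indicator_of_notMem hx]
      have : Prod.mk x ⁻¹' Q = ∅ := by
        ext y
        rw [hQ]
        simp only [mem_preimage, mem_ofPred_eq, mem_empty_iff_false, iff_false]
        rintro ⟨h5, _⟩
        exact hx (abs_le.mp h5)
      rw [this, measure_empty]
  refine (lintegral_mono h3).trans ?_
  rw [lintegral_indicator measurableSet_Icc, lintegral_const, Measure.restrict_apply_univ,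
    ENNReal.ofReal_mul hs, mul_comm]
  gcongr
  refine (N_Icc_le _ _).trans (le_of_eq ?_)
  congr 1; ring

/-- two slabs with unit normals -/
lemma two_slabs' {e f : E} (he : ‖e‖ = 1) (hf : ‖f‖ = 1) {s : ℝ} (hs : 0 ≤ s)
    (hef : 0 < 1 - (inner ℝ e f : ℝ) ^ 2) :
    stdGaussian E {v | |inner ℝ e v| ≤ s ∧ |inner ℝ f v| ≤ s}
      ≤ ENNReal.ofReal (s ^ 2 / √(1 - (inner ℝ e f : ℝ) ^ 2)) := by
  obtain ⟨ρ, hρ⟩ : ∃ ρ : ℝ, ρ = inner ℝ e f := ⟨_, rfl⟩
  rw [← hρ] at hef ⊢
  obtain ⟨σ, hσ⟩ : ∃ σ : ℝ, σ = √(1 - ρ ^ 2) := ⟨_, rfl⟩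
  have hσ0 : 0 < σ := by rw [hσ]; exact Real.sqrt_pos.mpr hef
  have hσ2 : σ ^ 2 = 1 - ρ ^ 2 := by rw [hσ]; exact Real.sq_sqrt hef.le
  obtain ⟨w, hw⟩ : ∃ w : E, w = σ⁻¹ • (f - ρ • e) := ⟨_, rfl⟩
  have hf' : f = ρ • e + σ • w := by
    rw [hw, smul_smul, mul_inv_cancel₀ hσ0.ne', one_smul]; abel
  have hee : (inner ℝ e e : ℝ) = 1 := by rw [real_inner_self_eq_norm_sq, he]; norm_num
  have hew : (inner ℝ e w : ℝ) = 0 := by
    rw [hw, real_inner_smul_right, inner_sub_right, real_inner_smul_right, hee, ← hρ]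
    ring
  have hww : ‖w‖ = 1 := by
    have h1 : ‖f‖ ^ 2 = ρ ^ 2 + σ ^ 2 * ‖w‖ ^ 2 := by
      rw [hf', @norm_add_sq_real, norm_smul, norm_smul, real_inner_smul_left,
        real_inner_smul_right, hew, he, mul_pow, mul_pow]
      simp only [Real.norm_eq_abs, sq_abs]
      ring
    rw [hf, hσ2] at h1
    have h2 : ‖w‖ ^ 2 = 1 := by
      have h3 : (1 - ρ ^ 2) * (‖w‖ ^ 2 - 1) = 0 := by linarith
      rcases mul_eq_zero.mp h3 with h4 | h4
      · linarith
      · linarith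
    have h3 := norm_nonneg w
    nlinarith
  have h4 := two_slabs he hww hew (ρ := ρ) hσ0 hs
  rw [← hσ]
  refine le_trans (le_of_eq ?_) (h4.trans (le_of_eq ?_))
  · congr 1
    ext v
    simp only [mem_ofPred_eq]
    have : (inner ℝ f v : ℝ) = ρ * inner ℝ e v + σ * inner ℝ w v := by
      rw [hf', inner_add_left, real_inner_smul_left, real_inner_smul_left]
    rw [this]
  · congr 1; ring

/-! ### moments -/

lemma sqrt_ratio_le {a g : ℝ} (ha : 0 ≤ a) (hg : 0 < g) :
    √(a / g) ≤ a ^ 2 + g ^ (-(2 / 3) : ℝ) := by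
  have hg3 : 0 < g ^ (-(1 / 3) : ℝ) := Real.rpow_pos_of_pos hg _
  have e1 : g ^ (-(2 / 3) : ℝ) = (g ^ (-(1 / 3) : ℝ)) ^ 2 := by
    rw [← Real.rpow_natCast, ← Real.rpow_mul hg.le]; norm_num
  have e2 : 1 / g = (g ^ (-(1 / 3) : ℝ)) ^ 3 := by
    rw [← Real.rpow_natCast, ← Real.rpow_mul hg.le]
    norm_num
    rw [Real.rpow_neg_one]
  obtain ⟨h, hh⟩ : ∃ h : ℝ, h = g ^ (-(1 / 3) : ℝ) := ⟨_, rfl⟩
  rw [← hh] at hg3 e1 e2
  rw [e1, div_eq_mul_one_div, e2]
  rcases le_total a h with h1 | h1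
  · have : √(a * h ^ 3) ≤ h ^ 2 := by
      apply Real.sqrt_le_iff.mpr
      refine ⟨by positivity, ?_⟩
      calc a * h ^ 3 ≤ h * h ^ 3 := mul_le_mul_of_nonneg_right h1 (by positivity)
        _ = (h ^ 2) ^ 2 := by ring
    nlinarith [sq_nonneg a]
  · have : √(a * h ^ 3) ≤ a ^ 2 := by
      apply Real.sqrt_le_iff.mpr
      refine ⟨by positivity, ?_⟩
      calc a * h ^ 3 ≤ a * a ^ 3 := by gcongr
        _ = (a ^ 2) ^ 2 := by ring
    nlinarith [sq_nonneg h]

lemma lintegral_inner_sq {e : E} (he : ‖e‖ = 1) :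
    ∫⁻ v, ENNReal.ofReal ((inner ℝ e v : ℝ) ^ 2) ∂(stdGaussian E) = 1 := by
  have h0 : MemLp (fun v : E => (inner ℝ e v : ℝ)) 2 (stdGaussian E) := by
    have h1 : HasGaussianLaw (id : E → E) (stdGaussian E) := IsGaussian.hasGaussianLaw_id
    exact (h1.map_fun (innerSL ℝ e)).memLp_two
  have h1 : ∫ v, (inner ℝ e v : ℝ) ^ 2 ∂(stdGaussian E) = 1 := by
    have h2 := variance_dual_stdGaussian (E := E) (innerSL ℝ e)
    rw [innerSL_apply_norm, he] at h2
    have h3 : ∫ v, (innerSL ℝ e) v ∂(stdGaussian E) = 0 := integral_strongDual_stdGaussian _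
    rw [variance_of_integral_eq_zero (innerSL ℝ e).continuous.aemeasurable h3] at h2
    simpa using h2
  rw [← ofReal_integral_eq_lintegral_ofReal h0.integrable_sq
    (Filter.Eventually.of_forall fun v => sq_nonneg _), h1, ENNReal.ofReal_one]

lemma lintegral_norm_sq :
    ∫⁻ v, ENNReal.ofReal (‖v‖ ^ 2) ∂(stdGaussian E) = Module.finrank ℝ E := by
  have h1 : ∀ v : E, ENNReal.ofReal (‖v‖ ^ 2)
      = ∑ i, ENNReal.ofReal ((inner ℝ (stdOrthonormalBasis ℝ E i) v : ℝ) ^ 2) := by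
    intro v
    rw [← ENNReal.ofReal_sum_of_nonneg fun i _ => sq_nonneg _,
      (stdOrthonormalBasis ℝ E).sum_sq_inner_right]
  simp_rw [h1]
  rw [lintegral_finsetSum _ fun i _ => by fun_prop]
  have h2 : ∀ i, ∫⁻ v, ENNReal.ofReal ((inner ℝ (stdOrthonormalBasis ℝ E i) v : ℝ) ^ 2)
      ∂(stdGaussian E) = 1 := fun i =>
    lintegral_inner_sq ((stdOrthonormalBasis ℝ E).orthonormal.1 i)
  rw [Finset.sum_congr rfl fun i _ => h2 i]
  simp

/-- the moment bound -/
lemma moment_ratio {e : E} (he : ‖e‖ = 1) {M : ℝ} (hM : 0 < M) (hdim : (Module.finrank ℝ E : ℝ) = M) :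
    ∫⁻ v, ENNReal.ofReal √(‖v‖ / |inner ℝ e v|) ∂(stdGaussian E)
      ≤ ENNReal.ofReal (5 * √√M) := by
  have hsM : 0 < √M := Real.sqrt_pos.mpr hM
  have h1 : ∀ v : E, ENNReal.ofReal √(‖v‖ / |inner ℝ e v|) ≤ ENNReal.ofReal √√M *
      (ENNReal.ofReal M⁻¹ * ENNReal.ofReal (‖v‖ ^ 2)
        + ENNReal.ofReal (|(inner ℝ e v : ℝ)| ^ (-(2 / 3) : ℝ))) := by
    intro v
    rw [← ENNReal.ofReal_mul (by positivity), ← ENNReal.ofReal_add (by positivity) (by positivity),
      ← ENNReal.ofReal_mul (by positivity)]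
    refine ENNReal.ofReal_le_ofReal ?_
    rcases (abs_nonneg (inner ℝ e v : ℝ)).eq_or_lt with h0 | h0
    · rw [← h0, div_zero, Real.sqrt_zero]; positivity
    · have h2 := sqrt_ratio_le (a := ‖v‖ / √M) (by positivity) h0
      have h3 : √(‖v‖ / |inner ℝ e v|) = √√M * √(‖v‖ / √M / |inner ℝ e v|) := by
        rw [← Real.sqrt_mul hsM.le]
        congr 1
        field_simp
      rw [h3]
      refine mul_le_mul_of_nonneg_left (h2.trans (le_of_eq ?_)) (by positivity)
      rw [div_pow, Real.sq_sqrt hM.le]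
      ring
  refine (lintegral_mono h1).trans ?_
  rw [lintegral_const_mul _ (by fun_prop), lintegral_add_left (by fun_prop),
    lintegral_const_mul _ (by fun_prop), lintegral_norm_sq]
  have h2 : ∫⁻ v, ENNReal.ofReal (|(inner ℝ e v : ℝ)| ^ (-(2 / 3) : ℝ)) ∂(stdGaussian E) ≤ 4 := by
    have := lintegral_map (μ := stdGaussian E) (f := fun x : ℝ => ENNReal.ofReal (|x| ^ (-(2 / 3) : ℝ)))
      (by fun_prop) (meas_inner e)
    rw [map_inner he] at this
    rw [← this]
    exact N_neg_moment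
  have h3 : ENNReal.ofReal M⁻¹ * (Module.finrank ℝ E : ENNReal) = 1 := by
    have : (Module.finrank ℝ E : ENNReal) = ENNReal.ofReal M := by
      rw [← hdim, ENNReal.ofReal_natCast]
    rw [this, ← ENNReal.ofReal_mul (by positivity), inv_mul_cancel₀ hM.ne', ENNReal.ofReal_one]
  rw [h3]
  calc _ ≤ ENNReal.ofReal √√M * (1 + 4) := by gcongr
    _ = _ := by
        have : (1 + 4 : ENNReal) = ENNReal.ofReal 5 := by
          rw [ENNReal.ofReal_ofNat]; norm_num
        rw [this, ← ENNReal.ofReal_mul (by positivity), mul_comm]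

end Q299.PR
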