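import Pool.Agent.Q299.PR.Gauss

/-!
Normal vectors of hyperplanes spanned by rows.
-/

set_option linter.unusedSectionVars false

namespace Q299.PR

open MeasureTheory ProbabilityTheory Set

/-- the ambient space -/
abbrev EE (m : ℕ) := EuclideanSpace ℝ (Fin (m + 1))

variable {m : ℕ}

/-- the vector of cofactors of `m` rows -/
noncomputable def cof (r : Fin m → EE m) : EE m :=
  WithLp.toLp 2 fun j : Fin (m + 1) => (-1) ^ (m + (j : ℕ)) *
    Matrix.det (Matrix.of fun i k : Fin m => r i (j.succAbove k))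

lemma inner_cof (r : Fin m → EE m) (v : EE m) :
    (inner ℝ (cof r) v : ℝ) = Matrix.det (Matrix.of fun i k : Fin (m + 1) =>
      (Fin.snoc (α := fun _ => EE m) r v : Fin (m + 1) → EE m) i k) := by
  rw [Matrix.det_succ_row _ (Fin.last m), PiLp.inner_apply]
  refine Finset.sum_congr rfl fun j _ => ?_
  simp only [cof, Matrix.of_apply, Fin.snoc_last, Fin.val_last]
  have h1 : (Matrix.of fun i k : Fin (m + 1) =>
      (Fin.snoc (α := fun _ => EE m) r v : Fin (m + 1) → EE m) i k).submatrix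
        (Fin.last m).succAbove j.succAbove = Matrix.of fun i k : Fin m => r i (j.succAbove k) := by
    ext i k
    simp
  rw [h1]
  simp
  ring

lemma cof_perp (r : Fin m → EE m) (i : Fin m) : (inner ℝ (cof r) (r i) : ℝ) = 0 := by
  rw [inner_cof]
  apply Matrix.det_zero_of_row_eq (i := Fin.castSucc i) (j := Fin.last m)
    (Fin.castSucc_lt_last i).ne
  funext k
  simp

lemma cof_zero {r : Fin m → EE m} (h : cof r = 0) (v : EE m) :
    ∃ x : EE m, ‖x‖ = 1 ∧ (∀ i, (inner ℝ (r i) x : ℝ) = 0) ∧ (inner ℝ v x : ℝ) = 0 := by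
  have h1 := inner_cof r v
  rw [h, inner_zero_left] at h1
  obtain ⟨y, hy0, hy⟩ := Matrix.exists_mulVec_eq_zero_iff.mpr h1.symm
  obtain ⟨z, hz⟩ : ∃ z : EE m, z = WithLp.toLp 2 y := ⟨_, rfl⟩
  have hz0 : z ≠ 0 := by
    rw [hz]
    intro hc
    apply hy0
    have := congrArg (fun w : EE m => (w : Fin (m + 1) → ℝ)) hc
    funext j
    exact congrFun this j
  have hin : ∀ i : Fin (m + 1), (inner ℝ ((Fin.snoc (α := fun _ => EE m) r v : Fin (m + 1) → EE m) i)
      z : ℝ) = 0 := by
    intro i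
    have := congrFun hy i
    rw [Matrix.mulVec, dotProduct] at this
    rw [PiLp.inner_apply, ← this.trans (Pi.zero_apply i)]
    refine Finset.sum_congr rfl fun j _ => ?_
    rw [hz]
    simp [mul_comm]
  refine ⟨(‖z‖)⁻¹ • z, ?_, ?_, ?_⟩
  · rw [norm_smul, norm_inv, norm_norm, inv_mul_cancel₀ (norm_ne_zero_iff.mpr hz0)]
  · intro i
    rw [real_inner_smul_right]
    have := hin (Fin.castSucc i)
    rw [Fin.snoc_castSucc] at this
    rw [this, mul_zero]
  · rw [real_inner_smul_right]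
    have := hin (Fin.last m)
    rw [Fin.snoc_last] at this
    rw [this, mul_zero]

lemma cof_continuous : Continuous (cof : (Fin m → EE m) → EE m) := by
  unfold cof
  refine (PiLp.continuous_toLp 2 _).comp (continuous_pi fun j => ?_)
  refine continuous_const.mul (Continuous.matrix_det ?_)
  refine continuous_matrix fun i k => ?_
  simp only [Matrix.of_apply]
  fun_prop

variable {ι : Type*} [Fintype ι] [DecidableEq ι]

/-- sets of `m` rows -/
abbrev TT (ι : Type*) (m : ℕ) := {T : Finset ι // T.card = m}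

/-- rows in `T` -/
noncomputable def rws (T : TT ι m) (F : ι → EE m) : Fin m → EE m :=
  fun i => F ((T.1.equivFinOfCardEq T.2).symm i)

/-- normal vector -/
noncomputable def nT (T : TT ι m) (F : ι → EE m) : EE m := cof (rws T F)

/-- unit normal vector -/
noncomputable def nu (T : TT ι m) (F : ι → EE m) : EE m := (‖nT T F‖)⁻¹ • nT T F

lemma nT_continuous (T : TT ι m) : Continuous (nT T : (ι → EE m) → EE m) := by
  unfold nT rws
  exact cof_continuous.comp (continuous_pi fun i => continuous_apply _)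

lemma nu_norm {T : TT ι m} {F : ι → EE m} (h : nT T F ≠ 0) : ‖nu T F‖ = 1 := by
  unfold nu
  rw [norm_smul, norm_inv, norm_norm, inv_mul_cancel₀ (norm_ne_zero_iff.mpr h)]

lemma nT_perp (T : TT ι m) (F : ι → EE m) {i : ι} (hi : i ∈ T.1) :
    (inner ℝ (nT T F) (F i) : ℝ) = 0 := by
  have := cof_perp (rws T F) ((T.1.equivFinOfCardEq T.2) ⟨i, hi⟩)
  unfold rws at this
  rw [Equiv.symm_apply_apply] at this
  exact this

lemma nu_perp (T : TT ι m) (F : ι → EE m) {i : ι} (hi : i ∈ T.1) :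
    (inner ℝ (nu T F) (F i) : ℝ) = 0 := by
  unfold nu
  rw [real_inner_smul_left, nT_perp T F hi, mul_zero]

lemma nT_update (T : TT ι m) (F : ι → EE m) {i : ι} (hi : i ∉ T.1) (x : EE m) :
    nT T (Function.update F i x) = nT T F := by
  unfold nT
  congr 1
  unfold rws
  funext k
  rw [Function.update_of_ne]
  intro hc
  exact hi (hc ▸ ((T.1.equivFinOfCardEq T.2).symm k).2)

lemma nu_update (T : TT ι m) (F : ι → EE m) {i : ι} (hi : i ∉ T.1) (x : EE m) :
    nu T (Function.update F i x) = nu T F := by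
  unfold nu
  rw [nT_update T F hi]

lemma nu_measurable (T : TT ι m) : Measurable (nu T : (ι → EE m) → EE m) := by
  unfold nu
  have := (nT_continuous (ι := ι) T).measurable
  exact (this.norm.inv).smul this

/-- the key geometric inequality -/
lemma inner_le_sin {e f b : EE m} (he : ‖e‖ = 1) (hf : ‖f‖ = 1) (hb : (inner ℝ e b : ℝ) = 0) :
    |(inner ℝ f b : ℝ)| ≤ ‖b‖ * √(1 - (inner ℝ e f : ℝ) ^ 2) := by
  obtain ⟨ρ, hρ⟩ : ∃ ρ : ℝ, ρ = inner ℝ e f := ⟨_, rfl⟩
  rw [← hρ]
  have h1 : (inner ℝ f b : ℝ) = inner ℝ (f - ρ • e) b := by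
    rw [inner_sub_left, real_inner_smul_left, hb]; ring
  have h2 : ‖f - ρ • e‖ = √(1 - ρ ^ 2) := by
    have h3 : ‖f - ρ • e‖ ^ 2 = 1 - ρ ^ 2 := by
      rw [@norm_sub_sq_real, norm_smul, real_inner_smul_right, real_inner_comm, ← hρ, he, hf,
        mul_pow, Real.norm_eq_abs, sq_abs]
      ring
    rw [← Real.sqrt_sq (norm_nonneg _), h3]
  rw [h1, ← h2, mul_comm]
  exact abs_real_inner_le_norm _ _

end Q299.PR
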