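import Pool.Agent.Q299.PR.Upper

/-!
The stability constant and its deterministic comparisons.
-/

set_option linter.unusedSectionVars false

namespace Q299.PR

open MeasureTheory ProbabilityTheory Set

variable {m : ℕ}

/-- `sig A S` is the `M`-th largest singular value (`M = m + 1`) of the submatrix `A_S` with rows
`A i`, `i ∈ S`: the minimum of `‖A_S x‖` over unit vectors `x` (it is `0` if `|S| < M`). -/
noncomputable def sig (A : Fin (2 * m + 1) → EE m) (S : Finset (Fin (2 * m + 1))) : ℝ :=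
  ⨅ x : {x : EE m // ‖x‖ = 1}, √(∑ i ∈ S, (inner ℝ (A i) x.1 : ℝ) ^ 2)

/-- The stability constant: the minimum of `sig A S` over the sets `S` of rows whose complement
has rank smaller than `M = m + 1`. -/
noncomputable def omega (A : Fin (2 * m + 1) → EE m) : ℝ :=
  ⨅ S : {S : Finset (Fin (2 * m + 1)) //
    Module.finrank ℝ (Submodule.span ℝ (A '' {i | i ∉ S})) < m + 1}, sig A S.1

lemma sig_nonneg (A : Fin (2 * m + 1) → EE m) (S : Finset (Fin (2 * m + 1))) : 0 ≤ sig A S :=
  Real.iInf_nonneg fun _ => Real.sqrt_nonneg _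

lemma omega_nonneg (A : Fin (2 * m + 1) → EE m) : 0 ≤ omega A :=
  Real.iInf_nonneg fun _ => sig_nonneg _ _

lemma sig_le (A : Fin (2 * m + 1) → EE m) (S : Finset (Fin (2 * m + 1))) {x : EE m} (hx : ‖x‖ = 1) :
    sig A S ≤ √(∑ i ∈ S, (inner ℝ (A i) x : ℝ) ^ 2) := by
  unfold sig
  refine ciInf_le ⟨0, ?_⟩ (⟨x, hx⟩ : {x : EE m // ‖x‖ = 1})
  rintro _ ⟨y, rfl⟩
  exact Real.sqrt_nonneg _

lemma omega_le_sig (A : Fin (2 * m + 1) → EE m) {S : Finset (Fin (2 * m + 1))} (hS : m + 1 ≤ S.card) :
    omega A ≤ sig A S := by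
  classical
  have hr : Module.finrank ℝ (Submodule.span ℝ (A '' {i | i ∉ S})) < m + 1 := by
    have h1 : A '' {i | i ∉ S} = ((Finset.image A Sᶜ : Finset (EE m)) : Set (EE m)) := by
      rw [Finset.coe_image]
      congr 1
      ext i
      simp
    rw [h1]
    have h2 : Sᶜ.card = 2 * m + 1 - S.card := by
      rw [Finset.card_compl, Fintype.card_fin]
    calc _ ≤ (Finset.image A Sᶜ).card := finrank_span_finset_le_card _
      _ ≤ Sᶜ.card := Finset.card_image_le
      _ < m + 1 := by omega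
  unfold omega
  refine ciInf_le ⟨0, ?_⟩ (⟨S, hr⟩ : {S : Finset (Fin (2 * m + 1)) //
    Module.finrank ℝ (Submodule.span ℝ (A '' {i | i ∉ S})) < m + 1})
  rintro _ ⟨y, rfl⟩
  exact sig_nonneg _ _

section general
variable {ι : Type*} [Fintype ι] [DecidableEq ι]

lemma rws_perp {T : TT ι m} {F : ι → EE m} {x : EE m} (h : ∀ i, (inner ℝ (rws T F i) x : ℝ) = 0)
    {i : ι} (hi : i ∈ T.1) : (inner ℝ (F i) x : ℝ) = 0 := by
  have := h ((T.1.equivFinOfCardEq T.2) ⟨i, hi⟩)
  unfold rws at this
  rw [Equiv.symm_apply_apply] at this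
  exact this

lemma exists_unit (T : TT ι m) (F : ι → EE m) {v : EE m} {s : ℝ} (hs : 0 ≤ s)
    (h : nT T F = 0 ∨ |(inner ℝ (nu T F) v : ℝ)| ≤ s) :
    ∃ x : EE m, ‖x‖ = 1 ∧ (∀ i ∈ T.1, (inner ℝ (F i) x : ℝ) = 0) ∧ |(inner ℝ v x : ℝ)| ≤ s := by
  by_cases h0 : nT T F = 0
  · obtain ⟨x, hx, h1, h2⟩ := cof_zero (r := rws T F) h0 v
    exact ⟨x, hx, fun i hi => rws_perp h1 hi, by rw [h2, abs_zero]; exact hs⟩
  · have h1 := h.resolve_left h0
    refine ⟨nu T F, nu_norm h0, fun i hi => ?_, ?_⟩
    · rw [real_inner_comm]; exact nu_perp T F hi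
    · rw [real_inner_comm]; exact h1

lemma exists_unit' (T : TT ι m) (F : ι → EE m) :
    ∃ x : EE m, ‖x‖ = 1 ∧ (∀ i ∈ T.1, (inner ℝ (F i) x : ℝ) = 0) := by
  by_cases h0 : nT T F = 0
  · obtain ⟨x, hx, h1, h2⟩ := cof_zero (r := rws T F) h0 0
    exact ⟨x, hx, fun i hi => rws_perp h1 hi⟩
  · exact ⟨nu T F, nu_norm h0, fun i hi => by rw [real_inner_comm]; exact nu_perp T F hi⟩

end general

/-- **Deterministic upper bound.** -/
lemma omega_le (p : Fin (2 * m + 1) → Prop) [DecidablePred p] (A : Fin (2 * m + 1) → EE m) {s : ℝ}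
    (hs : 0 ≤ s) {k : {i // ¬ p i}}
    (h : A k ∈ UU s (fun i : {i // p i} => A i)) : omega A ≤ s := by
  classical
  obtain ⟨T, hT⟩ := h
  obtain ⟨x, hx, h1, h2⟩ := exists_unit T _ hs hT
  obtain ⟨S, hS⟩ : ∃ S : Finset (Fin (2 * m + 1)), S = insert k.1 (T.1.map (Function.Embedding.subtype p)) :=
    ⟨_, rfl⟩
  have hk : k.1 ∉ T.1.map (Function.Embedding.subtype p) := by
    intro hc
    rw [Finset.mem_map] at hc
    obtain ⟨i, _, hi⟩ := hc
    apply k.2
    rw [← hi]
    exact i.2
  have hcard : S.card = m + 1 := by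
    rw [hS, Finset.card_insert_of_notMem hk, Finset.card_map, T.2]
  refine (omega_le_sig A hcard.ge).trans ((sig_le A S hx).trans ?_)
  have h3 : ∑ i ∈ S, (inner ℝ (A i) x : ℝ) ^ 2 = (inner ℝ (A k.1) x : ℝ) ^ 2 := by
    rw [hS, Finset.sum_insert hk, Finset.sum_map]
    rw [Finset.sum_eq_zero, add_zero]
    intro i hi
    have := h1 i hi
    simp only [Function.Embedding.subtype_apply]
    rw [this]; ring
  rw [h3, Real.sqrt_sq_eq_abs]
  exact h2

section lower
variable {ι : Type*} [Fintype ι] [DecidableEq ι]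

/-- If every row of `B` is at distance at least `r` from the span of the others, then the
submatrix is well conditioned. -/
lemma well_cond {A : ι → EE m} {B : Finset ι} (hB : B.card = m + 1) {r : ℝ} (hr : 0 < r)
    (h : ∀ i ∈ B, ∀ c : ι → ℝ, r ≤ ‖A i - ∑ k ∈ B.erase i, c k • A k‖) :
    Submodule.span ℝ (A '' (B : Set ι)) = ⊤ ∧
      ∀ x : EE m, r * ‖x‖ ≤ √((m : ℝ) + 1) * √(∑ i ∈ B, (inner ℝ (A i) x : ℝ) ^ 2) := by
  classical
  obtain ⟨K, hK⟩ : ∃ K : ι → Submodule ℝ (EE m), K = fun i =>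
    Submodule.span ℝ (A '' ((B.erase i : Finset ι) : Set ι)) := ⟨_, rfl⟩
  obtain ⟨d, hd⟩ : ∃ d : ι → EE m, d = fun i => A i - (K i).starProjection (A i) := ⟨_, rfl⟩
  have hdK : ∀ i, d i ∈ (K i)ᗮ := by
    intro i
    rw [hd]
    exact Submodule.sub_starProjection_mem_orthogonal _
  have hdr : ∀ i ∈ B, r ≤ ‖d i‖ := by
    intro i hi
    have h1 : (K i).starProjection (A i) ∈ K i := Submodule.starProjection_apply_mem _ _
    rw [hK] at h1
    simp only at h1
    obtain ⟨c, hc⟩ := (Submodule.mem_span_image_finset_iff_exists_fun' (R := ℝ)).mp h1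
    have h2 := h i hi c
    rw [hc] at h2
    rw [hd]
    convert h2 using 3
    rw [hK]
  have hd0 : ∀ i ∈ B, 0 < ‖d i‖ := fun i hi => hr.trans_le (hdr i hi)
  have hoff : ∀ i, ∀ k ∈ B, k ≠ i → (inner ℝ (A k) (d i) : ℝ) = 0 := by
    intro i k hk hki
    refine Submodule.inner_right_of_mem_orthogonal ?_ (hdK i)
    rw [hK]
    apply Submodule.subset_span
    exact ⟨k, Finset.mem_coe.mpr (Finset.mem_erase.mpr ⟨hki, hk⟩), rfl⟩
  have hdiag : ∀ i, (inner ℝ (A i) (d i) : ℝ) = ‖d i‖ ^ 2 := by
    intro i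
    have h1 : A i = d i + (K i).starProjection (A i) := by rw [hd]; simp
    conv_lhs => rw [h1]
    rw [inner_add_left, real_inner_self_eq_norm_sq,
      Submodule.inner_right_of_mem_orthogonal (Submodule.starProjection_apply_mem _ _) (hdK i), add_zero]
  have hli : LinearIndependent ℝ (fun k : B => A k) := by
    rw [Fintype.linearIndependent_iff]
    intro g hg i
    have h1 : (inner ℝ (∑ k : B, g k • A k) (d i) : ℝ) = g i * ‖d i.1‖ ^ 2 := by
      rw [sum_inner, Finset.sum_eq_single i]
      · rw [real_inner_smul_left, hdiag]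
      · intro k _ hki
        rw [real_inner_smul_left, hoff i.1 k.1 k.2 (fun hc => hki (Subtype.ext hc)), mul_zero]
      · intro hc
        exact absurd (Finset.mem_univ _) hc
    rw [hg, inner_zero_left] at h1
    have := hd0 i.1 i.2
    have h2 : ‖d i.1‖ ^ 2 ≠ 0 := by positivity
    exact (mul_eq_zero.mp h1.symm).resolve_right h2
  have hspan : Submodule.span ℝ (A '' (B : Set ι)) = ⊤ := by
    have h1 := hli.span_eq_top_of_card_eq_finrank' (by
      rw [Fintype.card_coe, hB, finrank_euclideanSpace_fin])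
    rw [← h1]
    congr 1
    ext y
    constructor
    · rintro ⟨i, hi, rfl⟩
      exact ⟨⟨i, hi⟩, rfl⟩
    · rintro ⟨i, rfl⟩
      exact ⟨i.1, i.2, rfl⟩
  refine ⟨hspan, fun x => ?_⟩
  obtain ⟨y, hy⟩ : ∃ y : EE m, y = x - ∑ i ∈ B, ((inner ℝ (A i) x : ℝ) / ‖d i‖ ^ 2) • d i := ⟨_, rfl⟩
  have hy1 : ∀ k ∈ B, (inner ℝ (A k) y : ℝ) = 0 := by
    intro k hk
    rw [hy, inner_sub_right, inner_sum, Finset.sum_eq_single k]
    · rw [real_inner_smul_right, hdiag]
      have := hd0 k hk
      field_simp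
      ring
    · intro i _ hik
      rw [real_inner_smul_right, hoff i k hk hik.symm, mul_zero]
    · intro hc
      exact absurd hk hc
  have hy0 : y = 0 := by
    have h1 : y ∈ (Submodule.span ℝ (A '' (B : Set ι)))ᗮ := by
      rw [Submodule.mem_orthogonal]
      intro u hu
      induction hu using Submodule.span_induction with
      | mem z hz =>
        obtain ⟨k, hk, rfl⟩ := hz
        exact hy1 k hk
      | zero => exact inner_zero_left _
      | add z w _ _ hz hw => rw [inner_add_left, hz, hw, add_zero]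
      | smul a z _ hz => rw [real_inner_smul_left, hz, mul_zero]
    rw [hspan, Submodule.top_orthogonal_eq_bot, Submodule.mem_bot] at h1
    exact h1
  have hx : x = ∑ i ∈ B, ((inner ℝ (A i) x : ℝ) / ‖d i‖ ^ 2) • d i := by
    rw [hy0] at hy
    exact (sub_eq_zero.mp hy.symm)
  have h1 : r * ‖x‖ ≤ ∑ i ∈ B, |(inner ℝ (A i) x : ℝ)| := by
    have h2 : ‖x‖ ≤ ∑ i ∈ B, |(inner ℝ (A i) x : ℝ)| / r := by
      conv_lhs => rw [hx]
      refine (norm_sum_le _ _).trans (Finset.sum_le_sum fun i hi => ?_)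
      rw [norm_smul, norm_div, norm_pow, norm_norm, Real.norm_eq_abs]
      have h3 := hd0 i hi
      have h4 := hdr i hi
      have h5 : |(inner ℝ (A i) x : ℝ)| / ‖d i‖ ^ 2 * ‖d i‖ = |(inner ℝ (A i) x : ℝ)| / ‖d i‖ := by
        field_simp
      rw [h5]
      exact div_le_div_of_nonneg_left (abs_nonneg _) hr h4
    rw [← Finset.sum_div, le_div_iff₀ hr] at h2
    linarith
  refine h1.trans ?_
  have h2 := Finset.sum_mul_sq_le_sq_mul_sq B (fun _ => (1 : ℝ)) (fun i => |(inner ℝ (A i) x : ℝ)|)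
  simp only [one_mul, one_pow, Finset.sum_const, hB, sq_abs, nsmul_eq_mul, mul_one] at h2
  rw [← Real.sqrt_mul (by positivity)]
  apply Real.le_sqrt_of_sq_le
  push_cast at h2
  exact h2

/-- the bad event -/
def EB (r : ℝ) (B : Finset ι) (i : ι) : Set (ι → EE m) :=
  {A | ∃ c : ι → ℝ, ‖A i - ∑ k ∈ B.erase i, c k • A k‖ < r}

lemma EB_open (r : ℝ) (B : Finset ι) (i : ι) : IsOpen (EB r B i : Set (ι → EE m)) := by
  have : (EB r B i : Set (ι → EE m)) =
      ⋃ c : ι → ℝ, {A | ‖A i - ∑ k ∈ B.erase i, c k • A k‖ < r} := by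
    ext A; simp only [EB, mem_ofPred_eq, mem_iUnion]
  rw [this]
  refine isOpen_iUnion fun c => isOpen_lt ?_ continuous_const
  fun_prop

lemma EB_le {r : ℝ} {B : Finset ι} (hB : B.card = m + 1) {i : ι} (hi : i ∈ B) :
    (PP ι m) (EB r B i) ≤ ENNReal.ofReal r := by
  have hm : MeasurableSet (EB r B i : Set (ι → EE m)) := (EB_open r B i).measurableSet
  have hT : (B.erase i).card = m := by
    rw [Finset.card_erase_of_mem hi, hB]; rfl
  have h1 : Measurable fun A : ι → EE m => (EB r B i).indicator (fun _ => (1 : ENNReal)) A :=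
    measurable_const.indicator hm
  calc (PP ι m) (EB r B i) = ∫⁻ A, (EB r B i).indicator (fun _ => (1 : ENNReal)) A ∂(PP ι m) := by
        rw [lintegral_indicator_const hm, one_mul]
    _ = ∫⁻ A, ∫⁻ x, (EB r B i).indicator (fun _ => (1 : ENNReal)) (Function.update A i x)
          ∂(stdGaussian (EE m)) ∂(PP ι m) := lint_update i h1
    _ ≤ ∫⁻ _A, ENNReal.ofReal r ∂(PP ι m) := by
        refine lintegral_mono fun A => ?_
        obtain ⟨w, hw, hw1⟩ := exists_unit' (⟨B.erase i, hT⟩ : TT ι m) A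
        have hms : MeasurableSet {x : EE m | |(inner ℝ w x : ℝ)| ≤ r} :=
          measurableSet_le (by fun_prop) measurable_const
        calc _ ≤ ∫⁻ x, {x : EE m | |(inner ℝ w x : ℝ)| ≤ r}.indicator (fun _ => (1 : ENNReal)) x
              ∂(stdGaussian (EE m)) := by
              refine lintegral_mono fun x => ?_
              by_cases hx : Function.update A i x ∈ EB r B i
              · rw [indicator_of_mem hx, indicator_of_mem]
                obtain ⟨c, hc⟩ := hx
                rw [Function.update_self] at hc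
                have e1 : ∑ k ∈ B.erase i, c k • Function.update A i x k
                    = ∑ k ∈ B.erase i, c k • A k := by
                  refine Finset.sum_congr rfl fun k hk => ?_
                  rw [Function.update_of_ne (Finset.ne_of_mem_erase hk)]
                rw [e1] at hc
                have e2 : (inner ℝ w x : ℝ) = inner ℝ w (x - ∑ k ∈ B.erase i, c k • A k) := by
                  rw [inner_sub_right, inner_sum, Finset.sum_eq_zero, sub_zero]
                  intro k hk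
                  rw [real_inner_smul_right, real_inner_comm, hw1 k hk, mul_zero]
                simp only [mem_ofPred_eq]
                rw [e2]
                refine (abs_real_inner_le_norm _ _).trans ?_
                rw [hw, one_mul]
                exact hc.le
              · rw [indicator_of_notMem hx]
                exact bot_le
          _ ≤ _ := by
              rw [lintegral_indicator_const hms, one_mul]
              exact slab_le hw r
    _ = ENNReal.ofReal r := by rw [lintegral_const, measure_univ, mul_one]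

end lower

/-- **Deterministic lower bound.** -/
lemma omega_ge {A : Fin (2 * m + 1) → EE m} {t : ℝ} (ht : 0 < t)
    (h : ∀ B : Finset (Fin (2 * m + 1)), B.card = m + 1 → ∀ i ∈ B, A ∉ EB (√((m : ℝ) + 1) * t) B i) :
    t ≤ omega A := by
  classical
  have hm1 : (0 : ℝ) < (m : ℝ) + 1 := by positivity
  have hs : 0 < √((m : ℝ) + 1) := Real.sqrt_pos.mpr hm1
  have hB : ∀ B : Finset (Fin (2 * m + 1)), B.card = m + 1 →
      Submodule.span ℝ (A '' (B : Set (Fin (2 * m + 1)))) = ⊤ ∧
      ∀ x : EE m, (√((m : ℝ) + 1) * t) * ‖x‖ ≤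
        √((m : ℝ) + 1) * √(∑ i ∈ B, (inner ℝ (A i) x : ℝ) ^ 2) := by
    intro B hB
    refine well_cond hB (by positivity) fun i hi c => ?_
    have := h B hB i hi
    simp only [EB, mem_ofPred_eq, not_exists, not_lt] at this
    exact this c
  unfold omega
  have hne : Nonempty {S : Finset (Fin (2 * m + 1)) //
      Module.finrank ℝ (Submodule.span ℝ (A '' {i | i ∉ S})) < m + 1} := by
    refine ⟨⟨Finset.univ, ?_⟩⟩
    have : {i : Fin (2 * m + 1) | i ∉ (Finset.univ : Finset (Fin (2 * m + 1)))} = ∅ := by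
      ext i; simp
    rw [this, image_empty, Submodule.span_empty, finrank_bot]
    omega
  refine le_ciInf fun S => ?_
  rcases le_or_gt (m + 1) S.1.card with hS | hS
  · obtain ⟨B, hBS, hBc⟩ := Finset.exists_subset_card_eq hS
    unfold sig
    have hne2 : Nonempty {x : EE m // ‖x‖ = 1} := by
      exact ⟨⟨EuclideanSpace.single 0 1, by simp⟩⟩
    refine le_ciInf fun x => ?_
    have h1 := (hB B hBc).2 x.1
    rw [x.2, mul_one] at h1
    have h2 := le_of_mul_le_mul_left h1 hs
    refine h2.trans (Real.sqrt_le_sqrt ?_)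
    exact Finset.sum_le_sum_of_subset_of_nonneg hBS fun _ _ _ => sq_nonneg _
  · exfalso
    have hc : m + 1 ≤ S.1ᶜ.card := by
      rw [Finset.card_compl, Fintype.card_fin]
      omega
    obtain ⟨B, hBS, hBc⟩ := Finset.exists_subset_card_eq hc
    have h1 := (hB B hBc).1
    have h2 : Submodule.span ℝ (A '' {i | i ∉ S.1}) = ⊤ := by
      rw [eq_top_iff, ← h1]
      apply Submodule.span_mono
      apply image_mono
      intro i hi
      have := hBS hi
      rw [Finset.mem_compl] at this
      exact this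
    have h3 := S.2
    rw [h2, finrank_top, finrank_euclideanSpace_fin] at h3
    omega

/-- **Lower bound in probability.** -/
lemma lower_prob {t : ℝ} (ht : 0 < t) :
    (PP (Fin (2 * m + 1)) m) {A | omega A < t} ≤ ENNReal.ofReal (4 ^ m * ((m : ℝ) + 1) ^ 2 * t) := by
  classical
  obtain ⟨r, hr⟩ : ∃ r : ℝ, r = √((m : ℝ) + 1) * t := ⟨_, rfl⟩
  have hr0 : 0 ≤ r := by rw [hr]; positivity
  have hsub : {A : Fin (2 * m + 1) → EE m | omega A < t} ⊆
      ⋃ B ∈ (Finset.univ.powersetCard (m + 1) : Finset (Finset (Fin (2 * m + 1)))), ⋃ i ∈ B,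
        EB r B i := by
    intro A hA
    simp only [mem_ofPred_eq] at hA
    by_contra hc
    apply absurd hA (not_lt.mpr _)
    refine omega_ge ht fun B hB i hi hcon => hc ?_
    rw [← hr] at hcon
    simp only [mem_iUnion]
    exact ⟨B, Finset.mem_powersetCard.mpr ⟨Finset.subset_univ _, hB⟩, i, hi, hcon⟩
  calc _ ≤ _ := measure_mono hsub
    _ ≤ ∑ B ∈ (Finset.univ.powersetCard (m + 1) : Finset (Finset (Fin (2 * m + 1)))),
          (PP (Fin (2 * m + 1)) m) (⋃ i ∈ B, EB r B i) := measure_biUnion_finset_le _ _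
    _ ≤ ∑ _B ∈ (Finset.univ.powersetCard (m + 1) : Finset (Finset (Fin (2 * m + 1)))),
          ((m + 1 : ℕ) : ENNReal) * ENNReal.ofReal r := by
        refine Finset.sum_le_sum fun B hB => ?_
        have hBc := (Finset.mem_powersetCard.mp hB).2
        refine (measure_biUnion_finset_le _ _).trans ?_
        calc _ ≤ ∑ _i ∈ B, ENNReal.ofReal r := Finset.sum_le_sum fun i hi => EB_le hBc hi
          _ = _ := by rw [Finset.sum_const, hBc, nsmul_eq_mul]
    _ = ENNReal.ofReal (((2 * m + 1).choose (m + 1) : ℝ) * (((m : ℝ) + 1) * r)) := by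
        rw [Finset.sum_const, Finset.card_powersetCard, Finset.card_univ, Fintype.card_fin,
          nsmul_eq_mul, ← ENNReal.ofReal_natCast, ← ENNReal.ofReal_natCast,
          ← ENNReal.ofReal_mul (by positivity), ← ENNReal.ofReal_mul (by positivity)]
        push_cast
        rfl
    _ ≤ _ := by
        apply ENNReal.ofReal_le_ofReal
        have h1 : ((2 * m + 1).choose (m + 1) : ℝ) ≤ 4 ^ m := by
          have : (2 * m + 1).choose (m + 1) ≤ 4 ^ m := by
            rw [Nat.choose_symm_half]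
            exact Nat.choose_middle_le_pow m
          exact_mod_cast this
        have h2 : r ≤ ((m : ℝ) + 1) * t := by
          rw [hr]
          refine mul_le_mul_of_nonneg_right ?_ ht.le
          rw [Real.sqrt_le_left (by positivity)]
          nlinarith [(Nat.cast_nonneg m : (0 : ℝ) ≤ m)]
        calc ((2 * m + 1).choose (m + 1) : ℝ) * (((m : ℝ) + 1) * r)
            ≤ 4 ^ m * (((m : ℝ) + 1) * (((m : ℝ) + 1) * t)) := by gcongr
          _ = _ := by ring

end Q299.PR
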