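import Pool.Agent.Q299.PR.Far

/-!
The union of thin slabs orthogonal to the `m`-subsets of the rows has non-negligible measure.
-/

set_option linter.unusedSectionVars false

namespace Q299.PR

open MeasureTheory ProbabilityTheory Set

lemma two_mul_le_one_add_sq (a : ENNReal) : 2 * a ≤ 1 + a ^ 2 := by
  induction a with
  | top => simp
  | coe a =>
    have h : 2 * a ≤ 1 + a ^ 2 := by
      have : (2 * a : ℝ) ≤ 1 + (a : ℝ) ^ 2 := by nlinarith [sq_nonneg ((a : ℝ) - 1)]
      exact_mod_cast this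
    exact_mod_cast h

/-- Paley-Zygmund type inequality for a union. -/
lemma union_ge {Ω : Type*} [MeasurableSpace Ω] (μ : Measure Ω) {τ : Type*} [Fintype τ]
    (A : τ → Set Ω) (hA : ∀ T, MeasurableSet (A T)) (c : ENNReal) :
    2 * (c * ∑ T, μ (A T)) ≤ μ (⋃ T, A T) + c ^ 2 * ∑ T, ∑ T', μ (A T ∩ A T') := by
  classical
  obtain ⟨X, hX⟩ : ∃ X : Ω → ENNReal, X = fun v => ∑ T, (A T).indicator (fun _ => (1 : ENNReal)) v :=
    ⟨_, rfl⟩
  have hmi : ∀ T, Measurable fun v => (A T).indicator (fun _ => (1 : ENNReal)) v := fun T =>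
    measurable_const.indicator (hA T)
  have hXm : Measurable X := by
    rw [hX]
    exact Finset.measurable_sum _ fun T _ => hmi T
  have h1 : ∫⁻ v, X v ∂μ = ∑ T, μ (A T) := by
    rw [hX]
    simp only
    rw [lintegral_finsetSum _ fun T _ => hmi T]
    refine Finset.sum_congr rfl fun T _ => ?_
    rw [lintegral_indicator_const (hA T), one_mul]
  have h2 : ∫⁻ v, X v ^ 2 ∂μ = ∑ T, ∑ T', μ (A T ∩ A T') := by
    have e : ∀ v, X v ^ 2 = ∑ T, ∑ T', (A T ∩ A T').indicator (fun _ => (1 : ENNReal)) v := by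
      intro v
      rw [hX, sq]
      simp only
      rw [Finset.sum_mul_sum]
      refine Finset.sum_congr rfl fun T _ => Finset.sum_congr rfl fun T' _ => ?_
      simp only [indicator_apply, mem_inter_iff]
      by_cases ha : v ∈ A T <;> by_cases hb : v ∈ A T' <;> simp [ha, hb]
    simp_rw [e]
    rw [lintegral_finsetSum _ fun T _ => Finset.measurable_sum _ fun T' _ =>
      measurable_const.indicator ((hA T).inter (hA T'))]
    refine Finset.sum_congr rfl fun T _ => ?_
    rw [lintegral_finsetSum _ fun T' _ => measurable_const.indicator ((hA T).inter (hA T'))]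
    refine Finset.sum_congr rfl fun T' _ => ?_
    rw [lintegral_indicator_const ((hA T).inter (hA T')), one_mul]
  have hU : MeasurableSet (⋃ T, A T) := MeasurableSet.iUnion hA
  have h3 : ∀ v, 2 * (c * X v) ≤ (⋃ T, A T).indicator (fun _ => (1 : ENNReal)) v + c ^ 2 * X v ^ 2 := by
    intro v
    by_cases hv : v ∈ ⋃ T, A T
    · rw [indicator_of_mem hv, ← mul_pow]
      exact two_mul_le_one_add_sq _
    · have : X v = 0 := by
        rw [hX]
        refine Finset.sum_eq_zero fun T _ => ?_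
        rw [indicator_of_notMem]
        intro hc
        exact hv (mem_iUnion.mpr ⟨T, hc⟩)
      rw [this]; simp
  rw [← h1, ← h2]
  have hX2 : Measurable fun v => X v ^ 2 := hXm.pow_const 2
  calc 2 * (c * ∫⁻ v, X v ∂μ) = ∫⁻ v, 2 * (c * X v) ∂μ := by
        rw [lintegral_const_mul _ (hXm.const_mul c), lintegral_const_mul _ hXm]
    _ ≤ ∫⁻ v, ((⋃ T, A T).indicator (fun _ => (1 : ENNReal)) v + c ^ 2 * X v ^ 2) ∂μ :=
        lintegral_mono h3
    _ = _ := by
        rw [lintegral_add_right _ (hX2.const_mul _), lintegral_indicator_const hU, one_mul,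
          lintegral_const_mul _ hX2]

variable {m : ℕ} {ι : Type*} [Fintype ι] [DecidableEq ι]

/-- Few `m`-sets are close to a given one. -/
lemma near_card (hm : 0 < m) (T : TT ι m) :
    (Finset.univ.filter fun T' : TT ι m => ¬ 1 < (T.1 \ T'.1).card).card ≤ (Fintype.card ι) ^ 2 := by
  classical
  obtain ⟨g, hg⟩ : ∃ g : ι × ι → TT ι m, g = fun p =>
    if h : (insert p.2 (T.1.erase p.1)).card = m then ⟨_, h⟩ else T := ⟨_, rfl⟩
  have h1 : (Finset.univ.filter fun T' : TT ι m => ¬ 1 < (T.1 \ T'.1).card) ⊆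
      Finset.univ.image g := by
    intro T' hT'
    rw [Finset.mem_filter] at hT'
    have hT1 : (T.1 \ T'.1).card ≤ 1 := not_lt.mp hT'.2
    rw [Finset.mem_image]
    suffices h : ∃ p : ι × ι, insert p.2 (T.1.erase p.1) = T'.1 by
      obtain ⟨p, hp⟩ := h
      refine ⟨p, Finset.mem_univ _, ?_⟩
      rw [hg]
      simp only
      rw [dif_pos (by rw [hp]; exact T'.2)]
      exact Subtype.ext hp
    have hcc : (T'.1 \ T.1).card = (T.1 \ T'.1).card :=
      Finset.card_sdiff_comm (T'.2.trans T.2.symm)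
    rcases Nat.le_one_iff_eq_zero_or_eq_one.mp hT1 with h0 | h0
    · have hsub : T.1 ⊆ T'.1 := by
        rwa [Finset.card_eq_zero, Finset.sdiff_eq_empty_iff_subset] at h0
      have heq : T.1 = T'.1 := Finset.eq_of_subset_of_card_le hsub (by rw [T.2, T'.2])
      obtain ⟨i, hi⟩ : T.1.Nonempty := by
        rw [← Finset.card_pos, T.2]; exact hm
      exact ⟨(i, i), by rw [Finset.insert_erase hi, heq]⟩
    · obtain ⟨i, hi⟩ := Finset.card_eq_one.mp h0
      obtain ⟨j, hj⟩ := Finset.card_eq_one.mp (hcc.trans h0)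
      have hi1 : i ∈ T.1 \ T'.1 := by rw [hi]; exact Finset.mem_singleton_self i
      have hj1 : j ∈ T'.1 \ T.1 := by rw [hj]; exact Finset.mem_singleton_self j
      rw [Finset.mem_sdiff] at hi1 hj1
      refine ⟨(i, j), ?_⟩
      ext x
      rw [Finset.mem_insert, Finset.mem_erase]
      constructor
      · rintro (rfl | ⟨hx, hxT⟩)
        · exact hj1.1
        · by_contra hc
          have : x ∈ T.1 \ T'.1 := Finset.mem_sdiff.mpr ⟨hxT, hc⟩
          rw [hi, Finset.mem_singleton] at this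
          exact hx this
      · intro hx
        by_cases hxT : x ∈ T.1
        · right
          refine ⟨?_, hxT⟩
          rintro rfl
          exact hi1.2 hx
        · left
          have : x ∈ T'.1 \ T.1 := Finset.mem_sdiff.mpr ⟨hx, hxT⟩
          rw [hj, Finset.mem_singleton] at this
          exact this
  calc _ ≤ (Finset.univ.image g).card := Finset.card_le_card h1
    _ ≤ (Finset.univ : Finset (ι × ι)).card := Finset.card_image_le
    _ = _ := by rw [Finset.card_univ, Fintype.card_prod, sq]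

lemma psi_pos (e b : EE m) : psi e b ≠ 0 := by
  unfold psi
  split_ifs with h
  · simp
  · rw [Ne, ENNReal.ofReal_eq_zero, not_le]
    apply Real.sqrt_pos.mpr
    have hb : b ≠ 0 := by
      rintro rfl
      exact h (inner_zero_right _)
    have : 0 < ‖b‖ := norm_pos_iff.mpr hb
    have : 0 < |(inner ℝ e b : ℝ)| := abs_pos.mpr h
    positivity

lemma far_pair {T T' : TT ι m} {F : ι → EE m} (hT : nT T F ≠ 0) (hT' : nT T' F ≠ 0) {i j : ι}
    (hi : i ∈ T.1) (hj : j ∈ T.1) {s : ℝ} (hs : 0 < s) :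
    stdGaussian (EE m) {v | |(inner ℝ (nu T F) v : ℝ)| ≤ s ∧ |(inner ℝ (nu T' F) v : ℝ)| ≤ s}
      ≤ ENNReal.ofReal (s ^ 2) * (psi (nu T' F) (F i) * psi (nu T' F) (F j)) := by
  have hs2 : ENNReal.ofReal (s ^ 2) ≠ 0 := by
    rw [Ne, ENNReal.ofReal_eq_zero, not_le]; positivity
  by_cases h1 : (inner ℝ (nu T' F) (F i) : ℝ) = 0
  · have : psi (nu T' F) (F i) = ⊤ := by unfold psi; rw [if_pos h1]
    rw [this, ENNReal.top_mul (psi_pos _ _), ENNReal.mul_top hs2]
    exact le_top
  by_cases h2 : (inner ℝ (nu T' F) (F j) : ℝ) = 0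
  · have : psi (nu T' F) (F j) = ⊤ := by unfold psi; rw [if_pos h2]
    rw [this, ENNReal.mul_top (psi_pos _ _), ENNReal.mul_top hs2]
    exact le_top
  have g1 := inner_le_sin (nu_norm hT) (nu_norm hT') (nu_perp T F hi)
  have g2 := inner_le_sin (nu_norm hT) (nu_norm hT') (nu_perp T F hj)
  obtain ⟨σ, hσ⟩ : ∃ σ : ℝ, σ = √(1 - (inner ℝ (nu T F) (nu T' F) : ℝ) ^ 2) := ⟨_, rfl⟩
  rw [← hσ] at g1 g2
  have hi0 : 0 < |(inner ℝ (nu T' F) (F i) : ℝ)| := abs_pos.mpr h1
  have hj0 : 0 < |(inner ℝ (nu T' F) (F j) : ℝ)| := abs_pos.mpr h2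
  have hσ0 : 0 < σ := by
    by_contra hc
    have : σ = 0 := le_antisymm (not_lt.mp hc) (by rw [hσ]; exact Real.sqrt_nonneg _)
    rw [this, mul_zero] at g1
    linarith
  have hpos : 0 < 1 - (inner ℝ (nu T F) (nu T' F) : ℝ) ^ 2 := by
    rw [hσ] at hσ0
    exact Real.sqrt_pos.mp hσ0
  refine (two_slabs' (nu_norm hT) (nu_norm hT') hs.le hpos).trans ?_
  rw [← hσ]
  unfold psi
  rw [if_neg h1, if_neg h2, ← ENNReal.ofReal_mul (Real.sqrt_nonneg _),
    ← ENNReal.ofReal_mul (by positivity)]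
  apply ENNReal.ofReal_le_ofReal
  rw [div_eq_mul_inv]
  refine mul_le_mul_of_nonneg_left ?_ (by positivity)
  have k1 : σ⁻¹ ≤ ‖F i‖ / |(inner ℝ (nu T' F) (F i) : ℝ)| := by
    rw [inv_eq_one_div, div_le_div_iff₀ hσ0 hi0]
    linarith
  have k2 : σ⁻¹ ≤ ‖F j‖ / |(inner ℝ (nu T' F) (F j) : ℝ)| := by
    rw [inv_eq_one_div, div_le_div_iff₀ hσ0 hj0]
    linarith
  have hσi : 0 ≤ σ⁻¹ := by positivity
  calc σ⁻¹ = √(σ⁻¹) * √(σ⁻¹) := (Real.mul_self_sqrt hσi).symm
    _ ≤ _ := mul_le_mul (Real.sqrt_le_sqrt k1) (Real.sqrt_le_sqrt k2) (Real.sqrt_nonneg _)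
        (Real.sqrt_nonneg _)

/-- weight of a pair -/
noncomputable def wt (T T' : TT ι m) (F : ι → EE m) : ENNReal :=
  if h : 1 < (T.1 \ T'.1).card then
    nd T' F * (psi (nu T' F) (F (Finset.one_lt_card.mp h).choose) *
      psi (nu T' F) (F (Finset.one_lt_card.mp h).choose_spec.2.choose))
  else 0

lemma wt_measurable (T T' : TT ι m) : Measurable (wt T T' : (ι → EE m) → ENNReal) := by
  unfold wt
  split_ifs with h
  · have mi : ∀ i : ι, Measurable fun F : ι → EE m => psi (nu T' F) (F i) := fun i =>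
      psi_measurable.comp ((nu_measurable T').prodMk (measurable_pi_apply i))
    exact (nd_measurable T').mul ((mi _).mul (mi _))
  · exact measurable_const

lemma wt_int (T T' : TT ι m) : ∫⁻ F, wt T T' F ∂(PP ι m) ≤ ENNReal.ofReal (25 * √((m : ℝ) + 1)) := by
  unfold wt
  split_ifs with h
  · have h1 := (Finset.one_lt_card.mp h).choose_spec.1
    have h2 := (Finset.one_lt_card.mp h).choose_spec.2.choose_spec.1
    have h3 := (Finset.one_lt_card.mp h).choose_spec.2.choose_spec.2
    exact far_le T' h3 (Finset.mem_sdiff.mp h1).2 (Finset.mem_sdiff.mp h2).2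
  · simp

lemma wt_spec {T T' : TT ι m} (h : 1 < (T.1 \ T'.1).card) {F : ι → EE m} (hT : nT T F ≠ 0)
    (hT' : nT T' F ≠ 0) {s : ℝ} (hs : 0 < s) :
    stdGaussian (EE m) {v | |(inner ℝ (nu T F) v : ℝ)| ≤ s ∧ |(inner ℝ (nu T' F) v : ℝ)| ≤ s}
      ≤ ENNReal.ofReal (s ^ 2) * wt T T' F := by
  unfold wt nd
  rw [dif_pos h, if_neg hT', one_mul]
  have h1 := (Finset.one_lt_card.mp h).choose_spec.1
  have h2 := (Finset.one_lt_card.mp h).choose_spec.2.choose_spec.1
  exact far_pair hT hT' (Finset.mem_sdiff.mp h1).1 (Finset.mem_sdiff.mp h2).1 hs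

/-- total weight -/
noncomputable def WW (F : ι → EE m) : ENNReal := ∑ T : TT ι m, ∑ T' : TT ι m, wt T T' F

lemma WW_measurable : Measurable (WW : (ι → EE m) → ENNReal) :=
  Finset.measurable_sum _ fun T _ => Finset.measurable_sum _ fun T' _ => wt_measurable T T'

lemma WW_int : ∫⁻ F, (WW F : ENNReal) ∂(PP ι m) ≤
    ENNReal.ofReal ((Fintype.card (TT ι m) : ℝ) ^ 2 * (25 * √((m : ℝ) + 1))) := by
  unfold WW
  rw [lintegral_finsetSum _ fun T _ => Finset.measurable_sum _ fun T' _ => wt_measurable T T']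
  calc _ ≤ ∑ _T : TT ι m, ∑ _T' : TT ι m, ENNReal.ofReal (25 * √((m : ℝ) + 1)) := by
        refine Finset.sum_le_sum fun T _ => ?_
        rw [lintegral_finsetSum _ fun T' _ => wt_measurable T T']
        exact Finset.sum_le_sum fun T' _ => wt_int T T'
    _ = _ := by
        rw [Finset.sum_const, Finset.sum_const, Finset.card_univ, smul_smul, nsmul_eq_mul,
          ← ENNReal.ofReal_natCast, ← ENNReal.ofReal_mul (by positivity)]
        congr 1
        push_cast; ring

/-- the union of the slabs -/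
def UU (s : ℝ) (F : ι → EE m) : Set (EE m) :=
  {v | ∃ T : TT ι m, nT T F = 0 ∨ |(inner ℝ (nu T F) v : ℝ)| ≤ s}

/-- **The union of slabs is not small.** -/
lemma UU_ge (hm : 0 < m) {F : ι → EE m} {s K : ℝ} (hs : 0 < s) (hs1 : s ≤ 1) (hK : 0 ≤ K)
    (hns : (Fintype.card ι : ℝ) ^ 2 ≤ Fintype.card (TT ι m) * s)
    (hn : 0 < Fintype.card (TT ι m))
    (hW : (WW F : ENNReal) ≤ ENNReal.ofReal (K * (Fintype.card (TT ι m) : ℝ) ^ 2)) :
    ENNReal.ofReal (1 / (9 * (1 + K))) ≤ stdGaussian (EE m) (UU s F) := by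
  classical
  by_cases hd : ∃ T : TT ι m, nT T F = 0
  · obtain ⟨T, hT⟩ := hd
    have : UU s F = univ := by
      ext v; simp only [UU, mem_ofPred_eq, mem_univ, iff_true]
      exact ⟨T, Or.inl hT⟩
    rw [this, measure_univ, ← ENNReal.ofReal_one]
    apply ENNReal.ofReal_le_ofReal
    rw [div_le_one (by positivity)]
    linarith
  push Not at hd
  obtain ⟨n, hn'⟩ : ∃ n : ℝ, n = Fintype.card (TT ι m) := ⟨_, rfl⟩
  have hn0 : 0 < n := by rw [hn']; exact_mod_cast hn
  rw [← hn'] at hns hW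
  obtain ⟨A, hA⟩ : ∃ A : TT ι m → Set (EE m), A = fun T => {v | |(inner ℝ (nu T F) v : ℝ)| ≤ s} :=
    ⟨_, rfl⟩
  have hAm : ∀ T, MeasurableSet (A T) := by
    intro T
    rw [hA]
    exact measurableSet_le (by fun_prop) measurable_const
  have hsub : (⋃ T, A T) ⊆ UU s F := by
    intro v hv
    obtain ⟨T, hT⟩ := mem_iUnion.mp hv
    rw [hA] at hT
    exact ⟨T, Or.inr hT⟩
  obtain ⟨c, hc⟩ : ∃ c : ℝ, c = 1 / (3 * (n * s) * (1 + K)) := ⟨_, rfl⟩
  have hc0 : 0 < c := by rw [hc]; positivity
  have key := union_ge (stdGaussian (EE m)) A hAm (ENNReal.ofReal c)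
  have l1 : ENNReal.ofReal (n * (s / 3)) ≤ ∑ T, stdGaussian (EE m) (A T) := by
    calc ENNReal.ofReal (n * (s / 3)) = ∑ _T : TT ι m, ENNReal.ofReal (s / 3) := by
          rw [Finset.sum_const, Finset.card_univ, nsmul_eq_mul, hn',
            ENNReal.ofReal_mul (by positivity), ENNReal.ofReal_natCast]
      _ ≤ _ := by
          refine Finset.sum_le_sum fun T _ => ?_
          rw [hA]
          exact slab_ge (nu_norm (hd T)) hs.le hs1
  have l2 : ∑ T, ∑ T', stdGaussian (EE m) (A T ∩ A T') ≤ ENNReal.ofReal ((n * s) ^ 2 * (1 + K)) := by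
    calc ∑ T, ∑ T', stdGaussian (EE m) (A T ∩ A T')
        ≤ ∑ T : TT ι m, ∑ T' : TT ι m, ((if 1 < (T.1 \ T'.1).card then 0 else ENNReal.ofReal s) +
            ENNReal.ofReal (s ^ 2) * wt T T' F) := by
          refine Finset.sum_le_sum fun T _ => Finset.sum_le_sum fun T' _ => ?_
          split_ifs with h
          · rw [zero_add]
            refine le_trans (le_of_eq ?_) (wt_spec h (hd T) (hd T') hs)
            rw [hA]; rfl
          · refine le_trans (measure_mono inter_subset_left) ?_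
            rw [hA]
            exact (slab_le (nu_norm (hd T)) s).trans le_self_add
      _ = (∑ T : TT ι m, ∑ T' : TT ι m, (if 1 < (T.1 \ T'.1).card then 0 else ENNReal.ofReal s)) +
            ENNReal.ofReal (s ^ 2) * WW F := by
          unfold WW
          simp_rw [Finset.sum_add_distrib, Finset.mul_sum]
      _ ≤ (∑ _T : TT ι m, ENNReal.ofReal (n * s * s)) +
            ENNReal.ofReal (s ^ 2) * ENNReal.ofReal (K * n ^ 2) := by
          refine add_le_add (Finset.sum_le_sum fun T _ => ?_) (by gcongr)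
          have e1 : ∑ T' : TT ι m, (if 1 < (T.1 \ T'.1).card then 0 else ENNReal.ofReal s)
              = (Finset.univ.filter fun T' : TT ι m => ¬ 1 < (T.1 \ T'.1).card).card *
                  ENNReal.ofReal s := by
            rw [← nsmul_eq_mul, ← Finset.sum_const, Finset.sum_filter]
            refine Finset.sum_congr rfl fun T' _ => ?_
            split_ifs <;> simp_all
          rw [e1, ← ENNReal.ofReal_natCast, ← ENNReal.ofReal_mul (by positivity)]
          apply ENNReal.ofReal_le_ofReal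
          refine mul_le_mul_of_nonneg_right ?_ hs.le
          refine le_trans ?_ hns
          exact_mod_cast near_card hm T
      _ = ENNReal.ofReal ((n * s) ^ 2 * (1 + K)) := by
          rw [Finset.sum_const, Finset.card_univ, nsmul_eq_mul, ← ENNReal.ofReal_natCast, ← hn',
            ← ENNReal.ofReal_mul hn0.le, ← ENNReal.ofReal_mul (by positivity),
            ← ENNReal.ofReal_add (by positivity) (by positivity)]
          congr 1; ring
  have l3 : ENNReal.ofReal (2 / (9 * (1 + K))) ≤ stdGaussian (EE m) (⋃ T, A T) +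
      ENNReal.ofReal (1 / (9 * (1 + K))) := by
    calc ENNReal.ofReal (2 / (9 * (1 + K))) = 2 * (ENNReal.ofReal c * ENNReal.ofReal (n * (s / 3))) := by
          have : (2 : ENNReal) = ENNReal.ofReal 2 := by simp
          rw [this, ← ENNReal.ofReal_mul hc0.le, ← ENNReal.ofReal_mul (by norm_num)]
          congr 1
          rw [hc]; field_simp; ring
      _ ≤ 2 * (ENNReal.ofReal c * ∑ T, stdGaussian (EE m) (A T)) := by gcongr
      _ ≤ _ := key
      _ ≤ stdGaussian (EE m) (⋃ T, A T) +
            ENNReal.ofReal c ^ 2 * ENNReal.ofReal ((n * s) ^ 2 * (1 + K)) := by gcongr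
      _ = _ := by
          rw [← ENNReal.ofReal_pow hc0.le, ← ENNReal.ofReal_mul (by positivity)]
          congr 2
          rw [hc]; field_simp; ring
  refine le_trans ?_ (measure_mono hsub)
  have l4 := tsub_le_iff_right.mpr l3
  rw [← ENNReal.ofReal_sub _ (by positivity)] at l4
  refine le_trans (le_of_eq ?_) l4
  congr 1
  field_simp; ring

lemma UU_measurable (s : ℝ) : MeasurableSet {p : (ι → EE m) × EE m | p.2 ∈ UU s p.1} := by
  have : {p : (ι → EE m) × EE m | p.2 ∈ UU s p.1} =
      ⋃ T : TT ι m, ({p | nT T p.1 = 0} ∪ {p | |(inner ℝ (nu T p.1) p.2 : ℝ)| ≤ s}) := by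
    ext p
    simp only [UU, mem_ofPred_eq, mem_iUnion, mem_union]
  rw [this]
  refine MeasurableSet.iUnion fun T => MeasurableSet.union ?_ ?_
  · exact ((nT_continuous T).measurable.comp measurable_fst) (measurableSet_singleton 0)
  · have h1 : Measurable fun p : (ι → EE m) × EE m => nu T p.1 := (nu_measurable T).comp measurable_fst
    have h2 : Measurable fun p : (ι → EE m) × EE m => (inner ℝ (nu T p.1) p.2 : ℝ) :=
      h1.inner measurable_snd
    have h3 : Measurable fun p : (ι → EE m) × EE m => |(inner ℝ (nu T p.1) p.2 : ℝ)| := h2.abs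
    exact measurableSet_le h3 measurable_const

/-- **None of the extra rows falls into the union: unlikely.** -/
lemma none_le {κ : Type*} [Fintype κ] (hm : 0 < m) {s K : ℝ} (hs : 0 < s) (hs1 : s ≤ 1) (hK : 0 < K)
    (hns : (Fintype.card ι : ℝ) ^ 2 ≤ Fintype.card (TT ι m) * s)
    (hn : 0 < Fintype.card (TT ι m)) :
    ((PP ι m).prod (PP κ m)) {p | ∀ k, p.2 k ∉ UU s p.1} ≤
      ENNReal.ofReal (25 * √((m : ℝ) + 1) / K) +
        ENNReal.ofReal ((1 - 1 / (9 * (1 + K))) ^ (Fintype.card κ)) := by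
  obtain ⟨n, hn'⟩ : ∃ n : ℝ, n = Fintype.card (TT ι m) := ⟨_, rfl⟩
  have hn0 : 0 < n := by rw [hn']; exact_mod_cast hn
  have hq1 : 1 / (9 * (1 + K)) ≤ 1 := by
    rw [div_le_one (by positivity)]
    linarith
  have hms : MeasurableSet {p : (ι → EE m) × (κ → EE m) | ∀ k, p.2 k ∉ UU s p.1} := by
    have : {p : (ι → EE m) × (κ → EE m) | ∀ k, p.2 k ∉ UU s p.1} =
        ⋂ k, (fun p : (ι → EE m) × (κ → EE m) => (p.1, p.2 k)) ⁻¹'
          {p : (ι → EE m) × EE m | p.2 ∈ UU s p.1}ᶜ := by
      ext p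
      simp only [mem_ofPred_eq, mem_iInter, mem_preimage, mem_compl_iff]
    rw [this]
    refine MeasurableSet.iInter fun k => ?_
    exact (measurable_fst.prodMk ((measurable_pi_apply k).comp measurable_snd))
      (UU_measurable s).compl
  rw [Measure.prod_apply hms]
  have hsl : ∀ F : ι → EE m, (PP κ m) (Prod.mk F ⁻¹' {p | ∀ k, p.2 k ∉ UU s p.1})
      = (stdGaussian (EE m) (UU s F)ᶜ) ^ (Fintype.card κ) := by
    intro F
    have : Prod.mk F ⁻¹' {p : (ι → EE m) × (κ → EE m) | ∀ k, p.2 k ∉ UU s p.1}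
        = Set.pi univ fun _ => (UU s F)ᶜ := by
      ext q
      simp
    rw [this, Measure.pi_pi, Finset.prod_const, Finset.card_univ]
  simp_rw [hsl]
  have hWm : MeasurableSet {F : ι → EE m | ENNReal.ofReal (K * n ^ 2) ≤ WW F} :=
    measurableSet_le measurable_const WW_measurable
  calc ∫⁻ F, (stdGaussian (EE m) (UU s F)ᶜ) ^ (Fintype.card κ) ∂(PP ι m)
      ≤ ∫⁻ F, ({F : ι → EE m | ENNReal.ofReal (K * n ^ 2) ≤ WW F}.indicator (fun _ => (1 : ENNReal)) F +
          ENNReal.ofReal ((1 - 1 / (9 * (1 + K))) ^ (Fintype.card κ))) ∂(PP ι m) := by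
        refine lintegral_mono fun F => ?_
        by_cases hF : ENNReal.ofReal (K * n ^ 2) ≤ WW F
        · rw [indicator_of_mem (show F ∈ {F : ι → EE m | ENNReal.ofReal (K * n ^ 2) ≤ WW F} from hF)]
          exact le_trans (pow_le_one' prob_le_one _) le_self_add
        · refine le_trans ?_ le_add_self
          rw [ENNReal.ofReal_pow (by linarith)]
          gcongr
          have h1 : ENNReal.ofReal (1 / (9 * (1 + K))) ≤ stdGaussian (EE m) (UU s F) := by
            refine UU_ge hm hs hs1 hK.le hns hn ?_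
            rw [← hn']
            exact (not_le.mp hF).le
          have hUm : MeasurableSet (UU s F) := by
            have := measurable_prodMk_left (x := F) (UU_measurable (ι := ι) (m := m) s)
            exact this
          rw [prob_compl_eq_one_sub hUm, ENNReal.ofReal_sub _ (by positivity), ENNReal.ofReal_one]
          exact tsub_le_tsub_left h1 _
    _ = (PP ι m) {F : ι → EE m | ENNReal.ofReal (K * n ^ 2) ≤ WW F} +
          ENNReal.ofReal ((1 - 1 / (9 * (1 + K))) ^ (Fintype.card κ)) := by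
        rw [lintegral_add_right _ measurable_const, lintegral_indicator_const hWm, one_mul,
          lintegral_const, measure_univ, mul_one]
    _ ≤ _ := by
        refine add_le_add ?_ le_rfl
        have hpos : 0 < K * n ^ 2 := by positivity
        refine (meas_ge_le_lintegral_div WW_measurable.aemeasurable ?_ ENNReal.ofReal_ne_top).trans ?_
        · rw [Ne, ENNReal.ofReal_eq_zero, not_le]; exact hpos
        · refine (ENNReal.div_le_div_right WW_int _).trans ?_
          rw [← hn', ← ENNReal.ofReal_div_of_pos hpos]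
          apply ENNReal.ofReal_le_ofReal
          apply le_of_eq
          field_simp

end Q299.PR
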